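import Pool.Agent.Helper600R2.Quad.Core
import Pool.Agent.H542R2.Hash

/-!
The family of all small formulas.
-/

namespace Pool.Agent.Helper600R2.Quad

open Finset Pool.Agent.Helper600R2 Pool.Agent.Helper600R2.Sharp Pool.Agent.H564R2.QF
open H542 (T evs leavess inst evs_inst leavess_inst decode exists_code)

/-- translation of trees -/
def toF {V : Type} : T V → Fml V
  | .lit v s => if s = true then .var v else .neg (.var v)
  | .nd c f g => if c = true then .and (toF f) (toF g) else .or (toF f) (toF g)

lemma toF_size {V : Type} (f : T V) : (toF f).size = f.leaves := by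
  induction f with
  | lit v s => cases s <;> simp [toF, Fml.size, H542.T.leaves]
  | nd c f g hf hg => cases c <;> simp [toF, Fml.size, H542.T.leaves, hf, hg]

lemma toF_eval {V : Type} (f : T V) (z : V → Bool) : (toF f).eval z = f.ev z := by
  induction f with
  | lit v s => cases s <;> simp [toF, Fml.eval, H542.T.ev]
  | nd c f g hf hg => cases c <;> simp [toF, Fml.eval, H542.T.ev, H542.bop, hf, hg]

lemma apx_formula {A W : Type} {k d s t : ℕ} (ht : 1 ≤ t) (htk : 2440980 * t ≤ k)
    (hs : s ≤ d * t ^ 2) (f : T (A ⊕ W)) (hf : f.leaves ≤ s) (w : W → Bool) :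
    Apx A k d (fun z => f.ev (Sum.elim z w)) := by
  intro j hj
  simp only [← evs_inst]
  have h1 := leavess_inst w f
  cases hi : inst w f with
  | inl g =>
    rw [hi] at h1
    obtain ⟨P, hP, hPf⟩ := formula_approx (toF g) j t (by omega) ht (by
      rw [toF_size]
      calc g.leaves ≤ f.leaves := h1
        _ ≤ s := hf
        _ ≤ d * t ^ 2 := hs
        _ ≤ j * t ^ 2 := Nat.mul_le_mul_right _ hj.le)
    refine ⟨12780 * j * t, ?_, P, hP, fun z => ?_⟩
    · calc 191 * (12780 * j * t) = (2440980 * t) * j := by ring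
        _ ≤ k * j := Nat.mul_le_mul_right _ htk
    · have := hPf z
      by_cases h2 : g.ev z = true
      · rw [if_pos (by rw [toF_eval]; exact h2)] at this
        rw [if_pos (show evs z (Sum.inl g) = true from h2)]
        exact this
      · rw [if_neg (by rw [toF_eval]; exact h2)] at this
        rw [if_neg (show ¬ evs z (Sum.inl g) = true from h2)]
        exact this
  | inr b =>
    refine ⟨0, by omega, _, LowDeg.const 0 (if b = true then (1 : ℝ) else 0), fun z => ?_⟩
    cases b <;> simp [evs]

open Classical in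
/-- The CNF and the lower bound for lines which are Boolean functions of formulas of size `s`. -/
theorem core3 {n k κ s t : ℕ} (hn : 25 ≤ n) (hk : 1 ≤ k) (d : ℕ) (ht : 1 ≤ t)
    (htk : 2440980 * t ≤ k) (hs : s ≤ d * t ^ 2)
    (mm : ℕ) (τ : ℝ) (hτ : 0 < τ)
    (hlt : (Fintype.card (Fin (2 * s) →
        Option (((((Fin n × Bool) × Fin k) ⊕ ((Fin n × Bool) × Fin κ)) × Bool) ⊕ Bool)) : ℝ) *
      ((1 / 4) ^ d * Real.exp ((Fintype.card (Fin n × Bool) : ℝ) *
      ((192 - 1) * mm / Fintype.card (Fin κ → Bool)))) ^ mm < τ ^ mm) :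
    ∃ (π : Equiv.Perm (Fin n)) (h : Fin n × Bool → (Fin κ → Bool) → Fin k),
      (CNF π h).card ≤ n * (2 ^ κ * 2) ^ 4 ∧ (∀ c ∈ CNF π h, c.card ≤ 4 * (κ + 1)) ∧
      (∀ z, ∃ c ∈ CNF π h, ¬ HoldsA z c) ∧
      ∀ (a r S : ℕ)
        (part : Fin S → Fin r → T (((Fin n × Bool) × Fin k) ⊕ ((Fin n × Bool) × Fin κ)) ⊕ Bool)
        (G : Fin S → (Fin r → Bool) → Bool), (∀ j l, leavess (part j l) ≤ s) →
        2 * ((a + 1) * (r * d) + 4) ≤ n / 60 → ((S : ℝ) * r) * τ ≤ 1 →
        (∀ j, (∃ c ∈ CNF π h, ∀ z, HoldsA z c → G j (fun l => evs z (part j l)) = true) ∨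
          ∃ P : Finset (Fin S), P.card ≤ a ∧ (∀ p ∈ P, p < j) ∧
            ∀ z, (∀ p ∈ P, G p (fun l => evs z (part p l)) = true) →
              G j (fun l => evs z (part j l)) = true) →
        ∀ j, ∃ z, G j (fun l => evs z (part j l)) = true := by
  let A := ((Fin n × Bool) × Fin k) ⊕ ((Fin n × Bool) × Fin κ)
  let Cd := Fin (2 * s) → Option ((A × Bool) ⊕ Bool)
  let F : Cd → (A → Bool) → Bool := fun c z =>
    match decode c with
    | some f => if f.leaves ≤ s then f.ev z else false
    | none => false
  have hF : ∀ c (w : (Fin n × Bool) × Fin κ → Bool),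
      Apx ((Fin n × Bool) × Fin k) k d (fun z => F c (Sum.elim z w)) := by
    intro c w
    have hconst : Apx ((Fin n × Bool) × Fin k) k d (fun _ => false) := by
      intro j _
      exact ⟨0, by omega, _, LowDeg.const 0 0, fun z => by simp⟩
    cases hc : decode c with
    | none =>
      simp only [F, hc]
      exact hconst
    | some f =>
      by_cases hf : f.leaves ≤ s
      · simp only [F, hc, if_pos hf]
        exact apx_formula ht htk hs f hf w
      · simp only [F, hc, if_neg hf]
        exact hconst
  obtain ⟨π, h, h1, h2, h3, h4⟩ := core2 hn hk F d hF mm τ hτ hlt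
  refine ⟨π, h, h1, h2, h3, ?_⟩
  intro a r S part G hsz hah hSr hsound j
  have hcode : ∀ j l, ∃ c : Cd, ∀ f, part j l = .inl f → ∀ z, F c z = f.ev z := by
    intro j l
    cases hl : part j l with
    | inl f =>
      have h5 : f.leaves ≤ s := by
        have := hsz j l
        rw [hl] at this
        exact this
      obtain ⟨c, hc⟩ := exists_code s f h5
      refine ⟨c, fun f' hf' z => ?_⟩
      rw [Sum.inl.injEq] at hf'
      subst hf'
      simp only [F, hc, if_pos h5]
    | inr b =>
      refine ⟨fun _ => none, fun f' hf' => ?_⟩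
      simp at hf'
  choose cd hcd using hcode
  let G' : Fin S → (Fin r → Bool) → Bool := fun j y =>
    G j (fun l => match part j l with
      | .inl _ => y l
      | .inr b => b)
  have hG : ∀ j z, G' j (fun l => F (cd j l) z) = G j (fun l => evs z (part j l)) := by
    intro j z
    simp only [G']
    congr 1
    funext l
    cases hl : part j l with
    | inl f => simp only [evs]; exact hcd j l f hl z
    | inr b => rfl
  have := h4 a r S cd G' hah hSr (by
    intro j
    simp only [hG]
    exact hsound j) j
  simpa only [hG] using this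

end Pool.Agent.Helper600R2.Quad
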