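import Pool.Agent.Helper600R2.Quad.Hash
import Pool.Agent.Helper600R2.Sharp.Lower

/-!
The CNF built from the Tseitin system of an expander and hash tables, and the lower bound for
lines which are Boolean functions of functions of small approximate degree.
-/

namespace Pool.Agent.Helper600R2.Quad

open Finset Pool.Agent.Helper600R2 Pool.Agent.Helper600R2.Sharp

/-- the assignment satisfies the clause -/
def HoldsA {A : Type} (z : A → Bool) (c : Finset (A × Bool)) : Prop := ∃ l ∈ c, z l.1 = l.2

/-- bits as residues -/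
def bz (b : Bool) : ZMod 2 := if b = true then 1 else 0

section

variable {E : Type} [DecidableEq E] {k κ : ℕ}

/-- the clause for the pointers `P` and the forbidden values `w` of one equation -/
def hclause (h : E → (Fin κ → Bool) → Fin k) (Rv : Finset E)
    (Pw : (Rv → Fin κ → Bool) × (Rv → Bool)) :
    Finset (((E × Fin k) ⊕ (E × Fin κ)) × Bool) :=
  (univ.biUnion fun i : Rv => univ.image fun b : Fin κ => (Sum.inr (i.1, b), !(Pw.1 i b))) ∪
    univ.image fun i : Rv => (Sum.inl (i.1, h i.1 (Pw.1 i)), !(Pw.2 i))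

theorem holds_hclause (h : E → (Fin κ → Bool) → Fin k) (Rv : Finset E)
    (Pw : (Rv → Fin κ → Bool) × (Rv → Bool)) (z : (E × Fin k) ⊕ (E × Fin κ) → Bool) :
    HoldsA z (hclause h Rv Pw) ↔ ∃ i : Rv, (∃ b, z (.inr (i.1, b)) ≠ Pw.1 i b) ∨
      z (.inl (i.1, h i.1 (Pw.1 i))) ≠ Pw.2 i := by
  have hb : ∀ a c : Bool, a = !c ↔ a ≠ c := by decide
  unfold HoldsA hclause
  constructor
  · rintro ⟨l, hl, hz⟩
    rw [mem_union, mem_biUnion, mem_image] at hl
    rcases hl with ⟨i, _, hi⟩ | ⟨i, _, hi⟩
    · rw [mem_image] at hi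
      obtain ⟨b, _, rfl⟩ := hi
      exact ⟨i, Or.inl ⟨b, (hb _ _).mp hz⟩⟩
    · subst hi
      exact ⟨i, Or.inr ((hb _ _).mp hz)⟩
  · rintro ⟨i, ⟨b, hib⟩ | hi⟩
    · refine ⟨(.inr (i.1, b), !(Pw.1 i b)), ?_, (hb _ _).mpr hib⟩
      rw [mem_union, mem_biUnion]
      exact Or.inl ⟨i, mem_univ i, mem_image_of_mem _ (mem_univ b)⟩
    · refine ⟨(.inl (i.1, h i.1 (Pw.1 i)), !(Pw.2 i)), ?_, (hb _ _).mpr hi⟩
      rw [mem_union]
      exact Or.inr (mem_image_of_mem _ (mem_univ i))

end

lemma flow_bz {n : ℕ} (π : Equiv.Perm (Fin n)) (v : Fin n) (y : Fin n × Bool → Bool) :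
    flow (ghd π) gtl v (fun e => bz (y e)) = ∑ i : Sharp.star π v, bz (y i.1) := by
  rw [Finset.sum_coe_sort (Sharp.star π v) (fun i => bz (y i)), flow]
  rw [← Finset.sum_subset (Finset.subset_univ (Sharp.star π v))]
  · refine Finset.sum_congr rfl (fun e he => ?_)
    have h2 : dd (ghd π) gtl (Pi.single v (1 : ZMod 2)) e = 1 := by
      apply zmod2
      simpa [Sharp.star, nsupp] using he
    rw [h2, one_mul]
  · intro e _ he
    have h2 : dd (ghd π) gtl (Pi.single v (1 : ZMod 2)) e = 0 := by
      by_contra h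
      exact he (by simpa [Sharp.star, nsupp] using h)
    rw [h2, zero_mul]

/-- the charges -/
def chg {n : ℕ} (v : Fin n) : ZMod 2 := if v.val = 0 then 1 else 0

open Classical in
/-- the clauses of the equation at `v` -/
noncomputable def idx {n κ : ℕ} (π : Equiv.Perm (Fin n)) (v : Fin n) :
    Finset ((Sharp.star π v → Fin κ → Bool) × (Sharp.star π v → Bool)) :=
  univ.filter fun Pw => ∑ i, bz (Pw.2 i) ≠ chg v

open Classical in
/-- the CNF of the graph `π` and the hash tables `h` -/
noncomputable def CNF {n k κ : ℕ} (π : Equiv.Perm (Fin n))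
    (h : Fin n × Bool → (Fin κ → Bool) → Fin k) :
    Finset (Finset ((((Fin n × Bool) × Fin k) ⊕ ((Fin n × Bool) × Fin κ)) × Bool)) :=
  univ.biUnion fun v => (idx π v).image (hclause h (Sharp.star π v))

open Classical in
/-- The CNF and the lower bound for an arbitrary finite family of functions which become of small
approximate degree after fixing the pointers. -/
theorem core2 {n k κ : ℕ} (hn : 25 ≤ n) (hk : 1 ≤ k) {Cd : Type} [Fintype Cd]
    (F : Cd → (((Fin n × Bool) × Fin k) ⊕ ((Fin n × Bool) × Fin κ) → Bool) → Bool) (d : ℕ)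
    (hF : ∀ c (w : (Fin n × Bool) × Fin κ → Bool),
      Apx ((Fin n × Bool) × Fin k) k d (fun z => F c (Sum.elim z w)))
    (mm : ℕ) (τ : ℝ) (hτ : 0 < τ)
    (hlt : (Fintype.card Cd : ℝ) * ((1 / 4) ^ d * Real.exp ((Fintype.card (Fin n × Bool) : ℝ) *
      ((192 - 1) * mm / Fintype.card (Fin κ → Bool)))) ^ mm < τ ^ mm) :
    ∃ (π : Equiv.Perm (Fin n)) (h : Fin n × Bool → (Fin κ → Bool) → Fin k),
      (CNF π h).card ≤ n * (2 ^ κ * 2) ^ 4 ∧ (∀ c ∈ CNF π h, c.card ≤ 4 * (κ + 1)) ∧
      (∀ z, ∃ c ∈ CNF π h, ¬ HoldsA z c) ∧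
      ∀ (a r S : ℕ) (part : Fin S → Fin r → Cd)
        (G : Fin S → (Fin r → Bool) → Bool),
        2 * ((a + 1) * (r * d) + 4) ≤ n / 60 → ((S : ℝ) * r) * τ ≤ 1 →
        (∀ j, (∃ c ∈ CNF π h, ∀ z, HoldsA z c → G j (fun l => F (part j l) z) = true) ∨
          ∃ P : Finset (Fin S), P.card ≤ a ∧ (∀ p ∈ P, p < j) ∧
            ∀ z, (∀ p ∈ P, G p (fun l => F (part p l) z) = true) →
              G j (fun l => F (part j l) z) = true) →
        ∀ j, ∃ z, G j (fun l => F (part j l) z) = true := by
  obtain ⟨π, hπ⟩ := exists_expander hn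
  obtain ⟨h, hh⟩ := exists_hash2 (ι := Fin n × Bool) (κt := Fin κ) hk F d hF mm τ hτ hlt
  have hdeg4 : ∀ v, (Sharp.star π v).card ≤ 4 := fun v => graph_deg (q := 2) π v 1
  refine ⟨π, h, ?_, ?_, ?_, ?_⟩
  · refine card_biUnion_le.trans ?_
    calc ∑ v : Fin n, ((idx π v).image (hclause h (Sharp.star π v))).card
        ≤ ∑ v : Fin n, (2 ^ κ * 2) ^ 4 := sum_le_sum fun v _ => by
          refine card_image_le.trans ((card_filter_le _ _).trans ?_)
          rw [card_univ, Fintype.card_prod, Fintype.card_fun, Fintype.card_fun, Fintype.card_fun,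
            Fintype.card_bool, Fintype.card_coe, Fintype.card_fin, ← mul_pow]
          exact Nat.pow_le_pow_right (by positivity) (hdeg4 v)
      _ = n * (2 ^ κ * 2) ^ 4 := by simp
  · intro c hc
    rw [CNF, mem_biUnion] at hc
    obtain ⟨v, _, hv⟩ := hc
    rw [mem_image] at hv
    obtain ⟨Pw, _, rfl⟩ := hv
    unfold hclause
    refine (card_union_le _ _).trans ?_
    have h1 : (univ.biUnion fun i : Sharp.star π v => univ.image fun b : Fin κ =>
        ((Sum.inr (i.1, b) : ((Fin n × Bool) × Fin k) ⊕ ((Fin n × Bool) × Fin κ)),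
          !(Pw.1 i b))).card ≤ 4 * κ := by
      refine card_biUnion_le.trans ?_
      calc ∑ i : Sharp.star π v, (univ.image fun b : Fin κ =>
            ((Sum.inr (i.1, b) : ((Fin n × Bool) × Fin k) ⊕ ((Fin n × Bool) × Fin κ)),
              !(Pw.1 i b))).card
          ≤ ∑ i : Sharp.star π v, κ := sum_le_sum fun i _ => card_image_le.trans (by simp)
        _ = (Sharp.star π v).card * κ := by simp
        _ ≤ 4 * κ := Nat.mul_le_mul_right _ (hdeg4 v)
    have h2 : (univ.image fun i : Sharp.star π v =>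
        ((Sum.inl (i.1, h i.1 (Pw.1 i)) : ((Fin n × Bool) × Fin k) ⊕ ((Fin n × Bool) × Fin κ)),
          !(Pw.2 i))).card ≤ 4 := by
      refine card_image_le.trans ?_
      rw [card_univ, Fintype.card_coe]
      exact hdeg4 v
    omega
  · intro z
    let P : Fin n × Bool → Fin κ → Bool := fun i c => z (.inr (i, c))
    let y : Fin n × Bool → Bool := fun i => z (.inl (i, h i (P i)))
    obtain ⟨v, hv⟩ : ∃ v, flow (ghd π) gtl v (fun e => bz (y e)) ≠ chg v := by
      by_contra hcon
      push Not at hcon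
      have h2 := flow_sum π (fun e => bz (y e))
      simp only [hcon, chg] at h2
      have h3 : ∑ v : Fin n, (if v.val = 0 then (1 : ZMod 2) else 0) = 1 := by
        rw [Finset.sum_eq_single (⟨0, by omega⟩ : Fin n)]
        · simp
        · intro v _ hv
          rw [if_neg]
          intro h
          exact hv (Fin.ext h)
        · intro h; exact absurd (mem_univ _) h
      rw [h3] at h2
      exact one_ne_zero h2
    refine ⟨hclause h (Sharp.star π v) (fun i => P i.1, fun i => y i.1), ?_, ?_⟩
    · rw [CNF, mem_biUnion]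
      refine ⟨v, mem_univ v, mem_image_of_mem _ ?_⟩
      simp only [idx, mem_filter, mem_univ, true_and]
      rw [← flow_bz]
      exact hv
    · rw [holds_hclause]
      rintro ⟨i, ⟨c, hc⟩ | hi⟩
      · exact hc rfl
      · exact hi rfl
  · intro a r S part G hah hSr hsound j
    obtain ⟨p, x, hpx⟩ := hh (Fin S × Fin r) (fun l => part l.1 l.2)
      (by rw [Fintype.card_prod, Fintype.card_fin, Fintype.card_fin]; push_cast; exact hSr)
    let Z : (Fin n × Bool → Bool) → (((Fin n × Bool) × Fin k) ⊕ ((Fin n × Bool) × Fin κ) → Bool) :=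
      fun y => fullv p (fun i => h i (p i)) x y
    let sel : Fin n × Bool → VL n 1 := fun e => (e, 0, 0)
    have hzs : ∀ y : VL n 1 → Bool, zsum 2 y = fun e => bz (y (sel e)) := by
      intro y
      funext e
      simp only [zsum, bz, sel, Finset.univ_unique, Finset.sum_singleton, Fin.default_eq_zero]
    have hψ : ((-1 : ℝ)) ^ 2 = 1 := by norm_num
    have hprim : IsPrimitiveRoot (-1 : ℝ) 2 := IsPrimitiveRoot.neg_one 0 (by norm_num)
    have hprim' := AddChar.zmodChar_primitive_of_primitive_root 2 hprim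
    obtain ⟨y, hy⟩ := lifted_no_low_degree π _ hprim' (by norm_num) (by norm_num : 1 + 1 = 2)
      (by omega) hπ chg (r * d) a hah
      (fun j (y : VL n 1 → Bool) => G j (fun l => F (part j l) (Z (fun e => y (sel e))))) (by
        intro j
        rcases hsound j with ⟨c, hc, hcj⟩ | ⟨P, hP1, hP2, hP3⟩
        · left
          rw [CNF, mem_biUnion] at hc
          obtain ⟨v, _, hv⟩ := hc
          rw [mem_image] at hv
          obtain ⟨Pw, hPw, rfl⟩ := hv
          refine ⟨v, fun y hy => hcj _ ?_⟩
          rw [holds_hclause]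
          by_contra hcon
          push Not at hcon
          simp only [idx, mem_filter, mem_univ, true_and] at hPw
          apply hPw
          have h1 : ∀ i : Sharp.star π v, Pw.1 i = p i.1 := by
            intro i
            funext c
            exact ((hcon i).1 c).symm
          have h2 : ∀ i : Sharp.star π v, Pw.2 i = y (sel i.1) := by
            intro i
            rw [← (hcon i).2, h1 i]
            simp [Z, fullv, rs]
          simp_rw [h2]
          rw [← flow_bz π v (fun e => y (sel e)), ← hzs]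
          exact hy
        · right
          exact ⟨P, hP1, hP2, fun y hy => hP3 _ hy⟩)
      (fun _ => (true, false)) (fun e t => ⟨0, rfl⟩)
      (by
        intro j
        have h1 : ∀ l, toK ℝ (fun y : VL n 1 → Bool =>
            F (part j l) (Z (fun e => y (sel e)))) ∈ J (ι := VL n 1) (α := Bool) ℝ d := by
          intro l
          exact lowDeg_le_J (V := VL n 1) sel d _ (hpx (j, l))
        exact comb_J (G j) _ d h1) j
    exact ⟨_, hy⟩

end Pool.Agent.Helper600R2.Quad
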