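import Pool.Agent.Helper600R2.Quad.Core

/-!
Short refutations of the CNF with lines of size `O(n 2 ^ κ)`.
-/

namespace Pool.Agent.Helper600R2.Quad

open Finset Pool.Agent.Helper600R2 Pool.Agent.Helper600R2.Sharp Pool.Agent.H564R2.QF

set_option linter.unusedSectionVars false

section general

variable {A : Type}

/-- sequences of formulas, newest first, each implied by a clause or by two earlier ones -/
def SP (C : Finset (Finset (A × Bool))) : List (Fml A) → Prop
  | [] => True
  | φ :: Ls => SP C Ls ∧ ((∃ c ∈ C, ∀ z, HoldsA z c → φ.eval z = true) ∨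
      (∀ z, φ.eval z = true) ∨
      ∃ a ∈ Ls, ∃ b ∈ Ls, ∀ z, a.eval z = true → b.eval z = true → φ.eval z = true)

lemma SP.append {C : Finset (Finset (A × Bool))} {L1 L2 : List (Fml A)} (h1 : SP C L1)
    (h2 : SP C L2) : SP C (L1 ++ L2) := by
  induction L1 with
  | nil => exact h2
  | cons φ L1 ih =>
    refine ⟨ih h1.1, ?_⟩
    rcases h1.2 with h | h | ⟨a, ha, b, hb, h⟩
    · exact Or.inl h
    · exact Or.inr (Or.inl h)
    · exact Or.inr (Or.inr ⟨a, List.mem_append_left _ ha, b, List.mem_append_left _ hb, h⟩)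

lemma SP.get {C : Finset (Finset (A × Bool))} {Ls : List (Fml A)} (h : SP C Ls) :
    ∀ (t : ℕ) (ht : t < Ls.length), (∃ c ∈ C, ∀ z, HoldsA z c → (Ls[t]).eval z = true) ∨
      (∀ z, (Ls[t]).eval z = true) ∨
      ∃ (u v : ℕ) (hu : u < Ls.length) (hv : v < Ls.length), t < u ∧ t < v ∧
        ∀ z, (Ls[u]).eval z = true → (Ls[v]).eval z = true → (Ls[t]).eval z = true := by
  induction Ls with
  | nil => intro t ht; simp at ht
  | cons φ Ls ih =>
    intro t ht
    cases t with
    | zero =>
      rcases h.2 with h1 | h1 | ⟨a, ha, b, hb, h1⟩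
      · exact Or.inl h1
      · exact Or.inr (Or.inl h1)
      · obtain ⟨u, hu, rfl⟩ := List.getElem_of_mem ha
        obtain ⟨v, hv, rfl⟩ := List.getElem_of_mem hb
        refine Or.inr (Or.inr ⟨u + 1, v + 1, by simpa using hu, by simpa using hv, by omega,
          by omega, ?_⟩)
        simpa using h1
    | succ t =>
      have ht' : t < Ls.length := by simpa using ht
      rcases ih h.1 t ht' with h1 | h1 | ⟨u, v, hu, hv, h2, h3, h1⟩
      · left; simpa using h1
      · right; left; simpa using h1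
      · right; right
        refine ⟨u + 1, v + 1, by simpa using hu, by simpa using hv, by omega, by omega, ?_⟩
        simpa using h1

/-- negation of a path -/
def NF : List (A × Bool) → Fml A
  | [] => .const false
  | (a, b) :: ρ => .or (if b = true then .neg (.var a) else .var a) (NF ρ)

lemma NF_size (ρ : List (A × Bool)) : (NF ρ).size = ρ.length := by
  induction ρ with
  | nil => rfl
  | cons p ρ ih =>
    obtain ⟨a, b⟩ := p
    cases b <;> simp [NF, Fml.size, ih] <;> omega

lemma NF_eval (ρ : List (A × Bool)) (z : A → Bool) :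
    (NF ρ).eval z = true ↔ ∃ l ∈ ρ, z l.1 ≠ l.2 := by
  induction ρ with
  | nil => simp [NF, Fml.eval]
  | cons p ρ ih =>
    obtain ⟨a, b⟩ := p
    simp only [NF, Fml.eval, Bool.or_eq_true, ih, List.mem_cons, exists_eq_or_imp]
    cases b <;> simp [Fml.eval]

/-- the formula `Φ` is derivable along the path `ρ` with `N` lines of size at most `B` -/
def Drv (C : Finset (Finset (A × Bool))) (Φ : Fml A) (B : ℕ) (ρ : List (A × Bool)) (N : ℕ) : Prop :=
  ∃ Ls : List (Fml A), SP C Ls ∧ (Fml.or (NF ρ) Φ) ∈ Ls ∧ Ls.length ≤ N ∧ ∀ φ ∈ Ls, φ.size ≤ B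

lemma Drv.mono {C : Finset (Finset (A × Bool))} {Φ : Fml A} {B : ℕ} {ρ : List (A × Bool)}
    {N N' : ℕ} (h : Drv C Φ B ρ N) (hN : N ≤ N') : Drv C Φ B ρ N' := by
  obtain ⟨Ls, h1, h2, h3, h4⟩ := h
  exact ⟨Ls, h1, h2, h3.trans hN, h4⟩

lemma Drv.leaf {C : Finset (Finset (A × Bool))} {Φ : Fml A} {B : ℕ} {ρ : List (A × Bool)}
    (hB : Φ.size + ρ.length ≤ B)
    (h : (∃ c ∈ C, ∀ z, HoldsA z c → ∃ l ∈ ρ, z l.1 ≠ l.2) ∨
      (∀ z, (∀ l ∈ ρ, z l.1 = l.2) → Φ.eval z = true)) : Drv C Φ B ρ 1 := by
  refine ⟨[Fml.or (NF ρ) Φ], ⟨trivial, ?_⟩, List.mem_singleton_self _, le_refl _, ?_⟩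
  · rcases h with ⟨c, hc, h⟩ | h
    · left
      refine ⟨c, hc, fun z hz => ?_⟩
      simp only [Fml.eval, Bool.or_eq_true, NF_eval]
      exact Or.inl (h z hz)
    · right; left
      intro z
      simp only [Fml.eval, Bool.or_eq_true, NF_eval]
      by_cases hz : ∀ l ∈ ρ, z l.1 = l.2
      · exact Or.inr (h z hz)
      · push Not at hz
        exact Or.inl hz
  · intro φ hφ
    rw [List.mem_singleton] at hφ
    subst hφ
    simp only [Fml.size, NF_size]
    omega

lemma Drv.node {C : Finset (Finset (A × Bool))} {Φ : Fml A} {B : ℕ} {ρ : List (A × Bool)}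
    (hB : Φ.size + ρ.length ≤ B) (a : A) {N0 N1 : ℕ} (h0 : Drv C Φ B ((a, false) :: ρ) N0)
    (h1 : Drv C Φ B ((a, true) :: ρ) N1) : Drv C Φ B ρ (N0 + N1 + 1) := by
  obtain ⟨L0, g1, g2, g3, g4⟩ := h0
  obtain ⟨L1, f1, f2, f3, f4⟩ := h1
  refine ⟨Fml.or (NF ρ) Φ :: (L0 ++ L1), ⟨g1.append f1, ?_⟩, List.mem_cons_self, ?_, ?_⟩
  · right; right
    refine ⟨_, List.mem_append_left _ g2, _, List.mem_append_right _ f2, fun z k0 k1 => ?_⟩
    simp only [NF, Fml.eval, Bool.or_eq_true] at k0 k1 ⊢
    simp only [Bool.false_eq_true, if_false, if_true, Fml.eval] at k0 k1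
    cases hz : z a
    · rw [hz] at k0
      simpa using k0
    · rw [hz] at k1
      simpa using k1
  · simp only [List.length_cons, List.length_append]
    omega
  · intro φ hφ
    rw [List.mem_cons, List.mem_append] at hφ
    rcases hφ with h | h | h
    · subst h
      simp only [Fml.size, NF_size]
      omega
    · exact g4 φ h
    · exact f4 φ h

end general

section blocks

variable {E : Type} [DecidableEq E] {k κ : ℕ}

/-- the pointer bits below `t` -/
def ptl (e : E) (q : Fin κ → Bool) : ℕ → List (((E × Fin k) ⊕ (E × Fin κ)) × Bool)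
  | 0 => []
  | t + 1 => if h : t < κ then (.inr (e, ⟨t, h⟩), q ⟨t, h⟩) :: ptl e q t else ptl e q t

lemma ptl_length (e : E) (q : Fin κ → Bool) (t : ℕ) :
    (ptl (k := k) e q t).length ≤ t := by
  induction t with
  | zero => simp [ptl]
  | succ t ih =>
    simp only [ptl]
    split_ifs
    · rw [List.length_cons]; omega
    · omega

lemma ptl_congr (e : E) (q q' : Fin κ → Bool) (t : ℕ) (h : ∀ c : Fin κ, c.val < t → q c = q' c) :
    ptl (k := k) e q t = ptl e q' t := by
  induction t with
  | zero => rfl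
  | succ t ih =>
    simp only [ptl]
    rw [ih (fun c hc => h c (by omega))]
    split_ifs with ht
    · rw [h ⟨t, ht⟩ (by simp)]
    · rfl

lemma ptl_mem (e : E) (q : Fin κ → Bool) (t : ℕ) (c : Fin κ) (hc : c.val < t) :
    ((.inr (e, c), q c) : ((E × Fin k) ⊕ (E × Fin κ)) × Bool) ∈ ptl e q t := by
  induction t with
  | zero => omega
  | succ t ih =>
    simp only [ptl]
    by_cases h : c.val = t
    · have ht : t < κ := by rw [← h]; exact c.2
      have hc' : c = ⟨t, ht⟩ := Fin.ext h
      rw [dif_pos ht, ← hc']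
      exact List.mem_cons_self
    · have h1 := ih (by omega)
      split_ifs
      · exact List.mem_cons_of_mem _ h1
      · exact h1

lemma Drv.pointers {C : Finset (Finset (((E × Fin k) ⊕ (E × Fin κ)) × Bool))}
    {Φ : Fml ((E × Fin k) ⊕ (E × Fin κ))} {B : ℕ}
    {ρ : List (((E × Fin k) ⊕ (E × Fin κ)) × Bool)} (e : E)
    (hB : Φ.size + ρ.length + κ ≤ B) {N : ℕ}
    (h : ∀ q : Fin κ → Bool, Drv C Φ B (ptl e q κ ++ ρ) N) : Drv C Φ B ρ (2 ^ κ * (N + 1)) := by
  have key : ∀ t : ℕ, t ≤ κ → ∀ q : Fin κ → Bool,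
      Drv C Φ B (ptl e q (κ - t) ++ ρ) (2 ^ t * (N + 1) - 1) := by
    intro t
    induction t with
    | zero =>
      intro _ q
      have := h q
      simpa using this
    | succ t ih =>
      intro ht q
      have hlt : κ - (t + 1) < κ := by omega
      have hs : κ - t = κ - (t + 1) + 1 := by omega
      have h1 : ∀ b : Bool, Drv C Φ B ((.inr (e, ⟨κ - (t + 1), hlt⟩), b) ::
          (ptl e q (κ - (t + 1)) ++ ρ)) (2 ^ t * (N + 1) - 1) := by
        intro b
        have h2 := ih (by omega) (Function.update q ⟨κ - (t + 1), hlt⟩ b)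
        rw [hs] at h2
        simp only [ptl, dif_pos hlt] at h2
        rw [ptl_congr e (Function.update q ⟨κ - (t + 1), hlt⟩ b) q (κ - (t + 1)) (by
          intro c hc
          rw [Function.update_of_ne]
          intro h3
          rw [h3] at hc
          simp at hc)] at h2
        simpa using h2
      have h3 := Drv.node (Φ := Φ) (B := B) (ρ := ptl e q (κ - (t + 1)) ++ ρ) (by
        have := ptl_length (k := k) e q (κ - (t + 1))
        rw [List.length_append]
        omega) _ (h1 false) (h1 true)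
      refine h3.mono ?_
      have h4 : 1 ≤ 2 ^ t * (N + 1) := Nat.succ_le_of_lt (by positivity)
      have h5 : 2 ^ (t + 1) * (N + 1) = 2 * (2 ^ t * (N + 1)) := by rw [pow_succ]; ring
      rw [h5]
      omega
  have := key κ (le_refl κ) (fun _ => false)
  rw [Nat.sub_self] at this
  simp only [ptl, List.nil_append] at this
  exact this.mono (Nat.sub_le _ _)

/-- all blocks of a list are read -/
lemma Drv.blocks {C : Finset (Finset (((E × Fin k) ⊕ (E × Fin κ)) × Bool))}
    {Φ : Fml ((E × Fin k) ⊕ (E × Fin κ))} {B : ℕ} (h : E → (Fin κ → Bool) → Fin k) (R : Finset E)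
    (hleaf : ∀ (ρ : List (((E × Fin k) ⊕ (E × Fin κ)) × Bool)) (P : E → Fin κ → Bool)
      (w : E → Bool), (∀ e ∈ R, (∀ c, (.inr (e, c), P e c) ∈ ρ) ∧ (.inl (e, h e (P e)), w e) ∈ ρ) →
      (∃ c ∈ C, ∀ z, HoldsA z c → ∃ l ∈ ρ, z l.1 ≠ l.2) ∨
      (∀ z, (∀ l ∈ ρ, z l.1 = l.2) → Φ.eval z = true)) :
    ∀ (t : ℕ) (R' : Finset E), (R \ R').card = t → ∀ (ρ : List (((E × Fin k) ⊕ (E × Fin κ)) × Bool))
      (P : E → Fin κ → Bool) (w : E → Bool),
      (∀ e ∈ R', (∀ c, (.inr (e, c), P e c) ∈ ρ) ∧ (.inl (e, h e (P e)), w e) ∈ ρ) →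
      Φ.size + ρ.length + t * (κ + 1) ≤ B → Drv C Φ B ρ (2 ^ ((κ + 2) * t)) := by
  intro t
  induction t with
  | zero =>
    intro R' hR ρ P w hρ hB
    rw [Finset.card_eq_zero, Finset.sdiff_eq_empty_iff_subset] at hR
    simpa using Drv.leaf (by simpa using hB) (hleaf ρ P w (fun e he => hρ e (hR he)))
  | succ t ih =>
    intro R' hR ρ P w hρ hB
    obtain ⟨e, he⟩ : (R \ R').Nonempty := by
      rw [← Finset.card_pos, hR]; omega
    have hR2 : (R \ (insert e R')).card = t := by
      have h1 : R \ (insert e R') = (R \ R').erase e := by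
        ext x
        simp only [mem_sdiff, mem_insert, mem_erase]
        tauto
      rw [h1, card_erase_of_mem he, hR]
      rfl
    have heR' : e ∉ R' := (mem_sdiff.mp he).2
    have hmul : (t + 1) * (κ + 1) = t * (κ + 1) + κ + 1 := by ring
    have h1 : ∀ q : Fin κ → Bool, Drv C Φ B (ptl e q κ ++ ρ)
        (2 ^ ((κ + 2) * t) + 2 ^ ((κ + 2) * t) + 1) := by
      intro q
      have hl := ptl_length (k := k) e q κ
      have h2 : ∀ b : Bool, Drv C Φ B ((.inl (e, h e q), b) :: (ptl e q κ ++ ρ))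
          (2 ^ ((κ + 2) * t)) := by
        intro b
        refine ih (insert e R') hR2 _ (Function.update P e q) (Function.update w e b) ?_ ?_
        · intro e' he'
          rw [mem_insert] at he'
          by_cases hee : e' = e
          · subst hee
            rw [Function.update_self, Function.update_self]
            refine ⟨fun c => ?_, List.mem_cons_self⟩
            exact List.mem_cons_of_mem _ (List.mem_append_left _ (ptl_mem e' q κ c c.2))
          · rw [Function.update_of_ne hee, Function.update_of_ne hee]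
            have h3 := hρ e' (by tauto)
            exact ⟨fun c => List.mem_cons_of_mem _ (List.mem_append_right _ (h3.1 c)),
              List.mem_cons_of_mem _ (List.mem_append_right _ h3.2)⟩
        · simp only [List.length_cons, List.length_append]
          omega
      refine Drv.node ?_ _ (h2 false) (h2 true)
      rw [List.length_append]
      omega
    refine (Drv.pointers e (by omega) h1).mono ?_
    have h4 : 1 ≤ 2 ^ ((κ + 2) * t) := Nat.one_le_two_pow
    calc 2 ^ κ * (2 ^ ((κ + 2) * t) + 2 ^ ((κ + 2) * t) + 1 + 1)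
        ≤ 2 ^ κ * (4 * 2 ^ ((κ + 2) * t)) := Nat.mul_le_mul_left _ (by omega)
      _ = 2 ^ ((κ + 2) * (t + 1)) := by
          rw [Nat.mul_succ, pow_add, pow_add]; ring

/-- the formula of the block function -/
lemma mux (h : E → (Fin κ → Bool) → Fin k) (e : E) : ∀ (t : ℕ) (T : Finset (Fin κ)), T.card = t →
    ∀ q : Fin κ → Bool, ∃ φ : Fml ((E × Fin k) ⊕ (E × Fin κ)), φ.size + 2 ≤ 3 * 2 ^ t ∧
      ∀ z, (∀ c, c ∉ T → z (.inr (e, c)) = q c) →
        φ.eval z = z (.inl (e, h e (fun c => z (.inr (e, c))))) := by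
  intro t
  induction t with
  | zero =>
    intro T hT q
    rw [Finset.card_eq_zero] at hT
    subst hT
    refine ⟨.var (.inl (e, h e q)), by simp [Fml.size], fun z hz => ?_⟩
    have h1 : (fun c => z (.inr (e, c))) = q := by
      funext c; exact hz c (by simp)
    rw [h1]
    rfl
  | succ t ih =>
    intro T hT q
    obtain ⟨c0, hc0⟩ : T.Nonempty := by rw [← Finset.card_pos, hT]; omega
    have hT' : (T.erase c0).card = t := by rw [card_erase_of_mem hc0, hT]; rfl
    obtain ⟨φ0, h01, h02⟩ := ih (T.erase c0) hT' (Function.update q c0 false)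
    obtain ⟨φ1, h11, h12⟩ := ih (T.erase c0) hT' (Function.update q c0 true)
    refine ⟨.or (.and (.neg (.var (.inr (e, c0)))) φ0) (.and (.var (.inr (e, c0))) φ1), ?_, ?_⟩
    · simp only [Fml.size]
      rw [pow_succ]
      omega
    · intro z hz
      simp only [Fml.eval]
      cases hc : z (.inr (e, c0))
      · have := h02 z (fun c hcT => by
          by_cases hcc : c = c0
          · rw [hcc, Function.update_self, hc]
          · rw [Function.update_of_ne hcc]
            exact hz c (fun h => hcT (mem_erase.mpr ⟨hcc, h⟩)))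
        simpa using this
      · have := h12 z (fun c hcT => by
          by_cases hcc : c = c0
          · rw [hcc, Function.update_self, hc]
          · rw [Function.update_of_ne hcc]
            exact hz c (fun h => hcT (mem_erase.mpr ⟨hcc, h⟩)))
        simpa using this

end blocks

/-- substitution -/
def bnd {α β : Type} (g : α → Fml β) : Form α → Fml β
  | .tru => .const true
  | .fls => .const false
  | .var a => g a
  | .neg φ => .neg (bnd g φ)
  | .and φ ψ => .and (bnd g φ) (bnd g ψ)
  | .or φ ψ => .or (bnd g φ) (bnd g ψ)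
  | .imp φ ψ => .or (.neg (bnd g φ)) (bnd g ψ)

lemma bnd_size {α β : Type} (g : α → Fml β) (M : ℕ) (hg : ∀ a, (g a).size ≤ M) (φ : Form α) :
    (bnd g φ).size ≤ φ.leaves * M := by
  induction φ with
  | tru => simp [bnd, Fml.size]
  | fls => simp [bnd, Fml.size]
  | var a => simpa [bnd, Form.leaves] using hg a
  | neg φ ih => simpa [bnd, Form.leaves, Fml.size] using ih
  | and φ ψ ih ih' => simp only [bnd, Form.leaves, Fml.size, Nat.add_mul]; omega
  | or φ ψ ih ih' => simp only [bnd, Form.leaves, Fml.size, Nat.add_mul]; omega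
  | imp φ ψ ih ih' => simp only [bnd, Form.leaves, Fml.size, Nat.add_mul]; omega

lemma bnd_eval {α β : Type} (g : α → Fml β) (φ : Form α) (z : β → Bool) :
    (bnd g φ).eval z = φ.eval (fun a => (g a).eval z) := by
  induction φ with
  | tru => rfl
  | fls => rfl
  | var a => rfl
  | neg φ ih => simp [bnd, Form.eval, Fml.eval, ih]
  | and φ ψ ih ih' => simp [bnd, Form.eval, Fml.eval, ih, ih']
  | or φ ψ ih ih' => simp [bnd, Form.eval, Fml.eval, ih, ih']
  | imp φ ψ ih ih' => simp [bnd, Form.eval, Fml.eval, ih, ih']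

/-- the parity constraint at `v` in terms of residues -/
lemma xor_iff {n : ℕ} (π : Equiv.Perm (Fin n)) (v : Fin n) (y : Fin n × Bool → Bool) :
    XorHolds (Sharp.star π v) (decide (v.val = 0)) y ↔
      ∑ i : Sharp.star π v, bz (y i.1) = chg v := by
  have h1 : ∑ i : Sharp.star π v, bz (y i.1) =
      (((Sharp.star π v).filter (fun i => y i = true)).card : ZMod 2) := by
    rw [Finset.sum_coe_sort (Sharp.star π v) (fun i => bz (y i))]
    simp only [bz]
    rw [Finset.sum_boole]
  rw [h1, XorHolds, ← Nat.odd_iff, ← ZMod.natCast_eq_one_iff_odd, chg]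
  by_cases hv : v.val = 0
  · simp [hv]
  · simp only [hv, decide_false, if_false, Bool.false_eq_true, iff_false]
    constructor
    · intro h
      by_contra h0
      exact h (zmod2 _ h0)
    · intro h h1
      rw [h] at h1
      exact zero_ne_one h1

theorem upper2 {n k κ : ℕ} (hn : 1 ≤ n) (π : Equiv.Perm (Fin n))
    (h : Fin n × Bool → (Fin κ → Bool) → Fin k) :
    ∃ Ls : List (Fml (((Fin n × Bool) × Fin k) ⊕ ((Fin n × Bool) × Fin κ))), SP (CNF π h) Ls ∧
      Ls.length ≤ n * 2 ^ ((κ + 2) * 4) + (n + 1) ∧ (∀ φ ∈ Ls, φ.size ≤ 200 * n * 2 ^ κ) ∧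
      ∃ φ ∈ Ls, ∀ z, φ.eval z = false := by
  classical
  -- the block functions
  have hmux : ∀ e : Fin n × Bool, ∃ φ : Fml (((Fin n × Bool) × Fin k) ⊕ ((Fin n × Bool) × Fin κ)),
      φ.size ≤ 3 * 2 ^ κ ∧ ∀ z, φ.eval z = z (.inl (e, h e (fun c => z (.inr (e, c))))) := by
    intro e
    obtain ⟨φ, h1, h2⟩ := mux h e κ univ (by simp) (fun _ => false)
    exact ⟨φ, by omega, fun z => h2 z (fun c hc => absurd (mem_univ c) hc)⟩
  choose g hg1 hg2 using hmux
  let b : Fin n → Bool := fun v => decide (v.val = 0)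
  have hS : ∀ v, (Sharp.star π v).card ≤ 4 := fun v => graph_deg (q := 2) π v 1
  choose Cf hC1 hC2 using fun v => constraint_form 4 (by norm_num) (Sharp.star π v) (hS v) (b v)
  choose Df hD1 hD2 using conj_form (w := 4) (by norm_num) (Sharp.star π) b hS
  let C : Fin n → Fml (((Fin n × Bool) × Fin k) ⊕ ((Fin n × Bool) × Fin κ)) := fun v => bnd g (Cf v)
  let D : ℕ → Fml (((Fin n × Bool) × Fin k) ⊕ ((Fin n × Bool) × Fin κ)) := fun i => bnd g (Df i)
  set B : ℕ := 200 * n * 2 ^ κ with hB
  have h2κ : κ + 1 ≤ 2 ^ κ := Nat.lt_two_pow_self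
  have hCs : ∀ v, (C v).size ≤ 192 * 2 ^ κ := by
    intro v
    calc (C v).size ≤ (Cf v).leaves * (3 * 2 ^ κ) := bnd_size g _ hg1 _
      _ ≤ (4 * 4 ^ 2) * (3 * 2 ^ κ) := Nat.mul_le_mul_right _ (hC1 v)
      _ = 192 * 2 ^ κ := by ring
  have hn2 : 2 ^ κ ≤ n * 2 ^ κ := Nat.le_mul_of_pos_left _ hn
  have hDs : ∀ i, i ≤ n → (D i).size ≤ B := by
    intro i hi
    calc (D i).size ≤ (Df i).leaves * (3 * 2 ^ κ) := bnd_size g _ hg1 _
      _ ≤ (i * (4 * 4 ^ 2)) * (3 * 2 ^ κ) := Nat.mul_le_mul_right _ (hD1 i)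
      _ ≤ (n * (4 * 4 ^ 2)) * (3 * 2 ^ κ) :=
          Nat.mul_le_mul_right _ (Nat.mul_le_mul_right _ hi)
      _ = 192 * (n * 2 ^ κ) := by ring
      _ ≤ B := by rw [hB, mul_assoc]; omega
  -- semantic meaning
  have hCe : ∀ v z, (C v).eval z = true ↔
      ∑ i : Sharp.star π v, bz (z (.inl (i.1, h i.1 (fun c => z (.inr (i.1, c)))))) = chg v := by
    intro v z
    simp only [C, bnd_eval, hC2, hg2]
    exact xor_iff π v (fun e => z (.inl (e, h e (fun c => z (.inr (e, c))))))
  -- derivation of the constraints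
  have hder : ∀ v, Drv (CNF π h) (C v) B [] (2 ^ ((κ + 2) * 4)) := by
    intro v
    have h1 := Drv.blocks (C := CNF π h) (Φ := C v) (B := B) h (Sharp.star π v) (by
      intro ρ P w hρ
      by_cases hsum : ∑ i : Sharp.star π v, bz (w i.1) = chg v
      · right
        intro z hz
        rw [hCe, ← hsum]
        refine Finset.sum_congr rfl (fun i _ => ?_)
        have h2 := hρ i.1 i.2
        have h3 : (fun c => z (.inr (i.1, c))) = P i.1 := by
          funext c; exact hz _ (h2.1 c)
        rw [h3]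
        congr 1
        exact hz _ h2.2
      · left
        refine ⟨hclause h (Sharp.star π v) (fun i => P i.1, fun i => w i.1), ?_, ?_⟩
        · rw [CNF, mem_biUnion]
          refine ⟨v, mem_univ v, mem_image_of_mem _ ?_⟩
          simp only [idx, mem_filter, mem_univ, true_and]
          exact hsum
        · intro z hz
          rw [holds_hclause] at hz
          obtain ⟨i, ⟨c, hc⟩ | hi⟩ := hz
          · exact ⟨_, (hρ i.1 i.2).1 c, hc⟩
          · exact ⟨_, (hρ i.1 i.2).2, hi⟩)
      (Sharp.star π v).card ∅ (by simp) [] (fun _ _ => false) (fun _ => false) (by simp) (by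
        have h4 : (Sharp.star π v).card * (κ + 1) ≤ 4 * (κ + 1) := Nat.mul_le_mul_right _ (hS v)
        have h5 := hCs v
        simp only [List.length_nil]
        rw [hB, mul_assoc]
        omega)
    exact h1.mono (Nat.pow_le_pow_right (by norm_num) (Nat.mul_le_mul_left _ (hS v)))
  -- assembling
  have key : ∀ i : ℕ, i ≤ n → ∃ Ls : List (Fml (((Fin n × Bool) × Fin k) ⊕
      ((Fin n × Bool) × Fin κ))), SP (CNF π h) Ls ∧ D i ∈ Ls ∧
      Ls.length ≤ i * 2 ^ ((κ + 2) * 4) + (i + 1) ∧ (∀ φ ∈ Ls, φ.size ≤ B) := by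
    intro i
    induction i with
    | zero =>
      intro _
      refine ⟨[D 0], ⟨trivial, Or.inr (Or.inl fun z => ?_)⟩, List.mem_singleton_self _, by simp,
        ?_⟩
      · simp only [D, bnd_eval, hD2]
        intro v hv
        omega
      · intro φ hφ
        rw [List.mem_singleton] at hφ
        rw [hφ]
        exact hDs 0 (by omega)
    | succ i ih =>
      intro hi
      obtain ⟨Ls, h1, h2, h3, h4⟩ := ih (by omega)
      obtain ⟨Lc, f1, f2, f3, f4⟩ := hder ⟨i, by omega⟩
      refine ⟨D (i + 1) :: (Ls ++ Lc), ⟨h1.append f1, Or.inr (Or.inr ⟨_,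
        List.mem_append_left _ h2, _, List.mem_append_right _ f2, fun z k1 k2 => ?_⟩)⟩,
        List.mem_cons_self, ?_, ?_⟩
      · have k3 : (C ⟨i, by omega⟩).eval z = true := by
          simpa [NF, Fml.eval] using k2
        simp only [D, C, bnd_eval, hD2, hC2] at k1 k3 ⊢
        intro v hv
        rcases Nat.lt_succ_iff_lt_or_eq.mp hv with h | h
        · exact k1 v h
        · have : v = ⟨i, by omega⟩ := Fin.ext h
          rw [this]; exact k3
      · simp only [List.length_cons, List.length_append]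
        have : (i + 1) * 2 ^ ((κ + 2) * 4) = i * 2 ^ ((κ + 2) * 4) + 2 ^ ((κ + 2) * 4) := by ring
        omega
      · intro φ hφ
        rw [List.mem_cons, List.mem_append] at hφ
        rcases hφ with g | g | g
        · rw [g]; exact hDs (i + 1) hi
        · exact h4 φ g
        · exact f4 φ g
  obtain ⟨Ls, h1, h2, h3, h4⟩ := key n (le_refl n)
  refine ⟨Ls, h1, h3, h4, D n, h2, fun z => ?_⟩
  by_contra hcon
  rw [Bool.not_eq_false] at hcon
  simp only [D, bnd_eval, hD2, hg2] at hcon
  let y : Fin n × Bool → Bool := fun e => z (.inl (e, h e (fun c => z (.inr (e, c)))))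
  have h5 : ∀ v : Fin n, ∑ i : Sharp.star π v, bz (y i.1) = chg v := by
    intro v
    exact (xor_iff π v y).mp (hcon v v.2)
  have h6 := flow_sum π (fun e => bz (y e))
  simp only [flow_bz, h5, chg] at h6
  have h7 : ∑ v : Fin n, (if v.val = 0 then (1 : ZMod 2) else 0) = 1 := by
    rw [Finset.sum_eq_single (⟨0, by omega⟩ : Fin n)]
    · simp
    · intro v _ hv
      rw [if_neg]
      intro h
      exact hv (Fin.ext h)
    · intro h; exact absurd (mem_univ _) h
  rw [h7] at h6
  exact one_ne_zero h6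

end Pool.Agent.Helper600R2.Quad
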