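import Pool.Agent.Helper600R2.Quad.Core
import Pool.Agent.H564R2.QF.Amp
import Pool.Agent.H564R2.QF.Robust

/-!
Functions of small approximate degree.
-/

namespace Pool.Agent.Helper600R2.Quad

open Finset Pool.Agent.H564R2.QF

/-- one step of the cubic amplification -/
noncomputable def cub (t : ℝ) : ℝ := t ^ 2 * (3 - 2 * t)

lemma cub_mono {s t : ℝ} (hs : 0 ≤ s) (hst : s ≤ t) (ht : t ≤ 1) : cub s ≤ cub t := by
  unfold cub
  have h1 : t ^ 2 * (3 - 2 * t) - s ^ 2 * (3 - 2 * s) =
      (t - s) * (3 * (t + s) - 2 * (t ^ 2 + t * s + s ^ 2)) := by ring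
  have h2 : 0 ≤ 3 * (t + s) - 2 * (t ^ 2 + t * s + s ^ 2) := by nlinarith
  nlinarith [mul_nonneg (sub_nonneg.mpr hst) h2]

lemma cub_range {t : ℝ} (h0 : 0 ≤ t) (h1 : t ≤ 1) : 0 ≤ cub t ∧ cub t ≤ 1 := by
  have e0 := cub_mono (le_refl 0) h0 h1
  have e1 := cub_mono h0 h1 (le_refl 1)
  constructor
  · simpa [cub] using e0
  · have : cub 1 = 1 := by unfold cub; norm_num
    linarith

lemma cub_symm (t : ℝ) : cub (1 - t) = 1 - cub t := by unfold cub; ring

lemma cub_poly (q : Polynomial ℝ) (m : ℕ) (hq : q.natDegree ≤ m) :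
    ∃ q' : Polynomial ℝ, q'.natDegree ≤ 3 * m ∧ ∀ t, q'.eval t = cub (q.eval t) := by
  refine ⟨q ^ 2 * (Polynomial.C 3 - Polynomial.C 2 * q), ?_, fun t => by simp [cub]⟩
  refine Polynomial.natDegree_mul_le.trans ?_
  have h1 : (q ^ 2).natDegree ≤ 2 * m :=
    Polynomial.natDegree_pow_le.trans (Nat.mul_le_mul_left _ hq)
  have h2 : (Polynomial.C 3 - Polynomial.C 2 * q).natDegree ≤ m := by
    refine (Polynomial.natDegree_sub_le _ _).trans (max_le ?_ ?_)
    · simp
    · refine Polynomial.natDegree_mul_le.trans ?_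
      simp only [Polynomial.natDegree_C, zero_add]
      exact hq
  omega

/-- constant amplification -/
lemma amp_const : ∃ q : Polynomial ℝ, q.natDegree ≤ 243 ∧ ∀ t : ℝ,
    (-1 / 3 ≤ t → t ≤ 4 / 3 → 0 ≤ q.eval t ∧ q.eval t ≤ 1) ∧
    (-1 / 3 ≤ t → t ≤ 1 / 3 → q.eval t ≤ 1 / 16) ∧
    (2 / 3 ≤ t → t ≤ 4 / 3 → 15 / 16 ≤ q.eval t) := by
  obtain ⟨q1, h1, e1⟩ := cub_poly (Polynomial.C (3 / 5) * Polynomial.X + Polynomial.C (1 / 5)) 1
    (Polynomial.natDegree_linear_le)
  obtain ⟨q2, h2, e2⟩ := cub_poly q1 3 (by omega)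
  obtain ⟨q3, h3, e3⟩ := cub_poly q2 9 (by omega)
  obtain ⟨q4, h4, e4⟩ := cub_poly q3 27 (by omega)
  obtain ⟨q5, h5, e5⟩ := cub_poly q4 81 (by omega)
  refine ⟨q5, by omega, fun t => ?_⟩
  have hval : q5.eval t = cub (cub (cub (cub (cub (3 / 5 * t + 1 / 5))))) := by
    rw [e5, e4, e3, e2, e1]; simp
  -- the small side
  have small : ∀ u : ℝ, 0 ≤ u → u ≤ 2 / 5 → cub (cub (cub (cub (cub u)))) ≤ 1 / 16 := by
    intro u hu0 hu
    have a1 : cub u ≤ 9 / 25 := (cub_mono hu0 hu (by norm_num)).trans (by unfold cub; norm_num)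
    have b1 := cub_range hu0 (by linarith)
    have a2 : cub (cub u) ≤ 3 / 10 :=
      (cub_mono b1.1 a1 (by norm_num)).trans (by unfold cub; norm_num)
    have b2 := cub_range b1.1 b1.2
    have a3 : cub (cub (cub u)) ≤ 11 / 50 :=
      (cub_mono b2.1 a2 (by norm_num)).trans (by unfold cub; norm_num)
    have b3 := cub_range b2.1 b2.2
    have a4 : cub (cub (cub (cub u))) ≤ 1 / 8 :=
      (cub_mono b3.1 a3 (by norm_num)).trans (by unfold cub; norm_num)
    have b4 := cub_range b3.1 b3.2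
    exact (cub_mono b4.1 a4 (by norm_num)).trans (by unfold cub; norm_num)
  refine ⟨fun ht0 ht1 => ?_, fun ht0 ht1 => ?_, fun ht0 ht1 => ?_⟩
  · rw [hval]
    have b0 := cub_range (t := 3 / 5 * t + 1 / 5) (by linarith) (by linarith)
    have b1 := cub_range b0.1 b0.2
    have b2 := cub_range b1.1 b1.2
    have b3 := cub_range b2.1 b2.2
    exact cub_range b3.1 b3.2
  · rw [hval]
    exact small _ (by linarith) (by linarith)
  · rw [hval]
    have h6 := small (1 - (3 / 5 * t + 1 / 5)) (by linarith) (by linarith)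
    simp only [cub_symm] at h6
    linarith

/-- the function `f` is within `1 / 3` of a real polynomial of degree `D` -/
def AD (V : Type) (D : ℕ) (f : (V → Bool) → Bool) : Prop :=
  ∃ P ∈ LowDeg V D, ∀ z, |P z - (if f z = true then (1 : ℝ) else 0)| ≤ 1 / 3

lemma AD_apx {V : Type} {D k d : ℕ} (hD : 100000 * D ≤ k) {f : (V → Bool) → Bool}
    (hf : AD V D f) : Apx V k d f := by
  obtain ⟨P, hP, hPf⟩ := hf
  obtain ⟨q, hq, hq2⟩ := amp_const
  intro j hj
  obtain ⟨B, hB1, hB2⟩ := exists_amp (2 * j)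
  refine ⟨2 * j * (243 * D), ?_, _, LowDeg.polyEval (LowDeg.polyEval hP q hq) B hB1, fun z => ?_⟩
  · calc 191 * (2 * j * (243 * D)) = j * (92826 * D) := by ring
      _ ≤ j * k := Nat.mul_le_mul_left _ (by omega)
      _ = k * j := mul_comm _ _
  · have h1 := abs_le.mp (hPf z)
    have hpow : ((1 : ℝ) / 2) ^ (2 * j) = (1 / 4) ^ j := by rw [pow_mul]; norm_num
    cases hz : f z
    · rw [hz] at h1
      simp only [Bool.false_eq_true, if_false, sub_zero] at h1 ⊢
      have h2 := (hq2 (P z)).1 (by linarith) (by linarith)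
      have h3 := (hq2 (P z)).2.1 (by linarith) (by linarith)
      have h4 := hB2 (q.eval (P z)) h2.1 h2.2
      rw [abs_of_nonneg h4.1, ← hpow]
      exact h4.2.2.1 h3
    · rw [hz] at h1
      simp only [if_true] at h1 ⊢
      have h2 := (hq2 (P z)).1 (by linarith) (by linarith)
      have h3 := (hq2 (P z)).2.2 (by linarith) (by linarith)
      have h4 := hB2 (q.eval (P z)) h2.1 h2.2
      rw [abs_sub_comm, abs_of_nonneg (by linarith [h4.2.1]), ← hpow]
      exact h4.2.2.2 h3

/-- fixing and renaming variables does not increase the degree -/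
lemma LowDeg.comp' {V U : Type} [DecidableEq U] {D : ℕ} {P : (V → Bool) → ℝ} (hP : P ∈ LowDeg V D)
    (g : V → U ⊕ Bool) :
    (fun z : U → Bool => P (fun v => Sum.elim z id (g v))) ∈ LowDeg U D := by
  classical
  induction hP using Submodule.span_induction with
  | mem f hf =>
    obtain ⟨S, hS, rfl⟩ := hf
    have h1 : (fun z : U → Bool => Pool.Agent.H564R2.QF.chi S (fun v => Sum.elim z id (g v))) =
        ∏ v ∈ S, (fun z : U → Bool => if Sum.elim z id (g v) = true then (-1 : ℝ) else 1) := by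
      funext z
      rw [Finset.prod_apply]
      rfl
    rw [h1]
    refine LowDeg.of_le (LowDeg.prod S (fun _ => 1) _ (fun v _ => ?_)) (by simpa using hS)
    cases hg : g v with
    | inl u =>
      have h2 : (fun z : U → Bool => if z u = true then (-1 : ℝ) else 1) =
          Pool.Agent.H564R2.QF.chi {u} := by
        funext z
        simp [Pool.Agent.H564R2.QF.chi]
      show (fun z : U → Bool => if z u = true then (-1 : ℝ) else 1) ∈ LowDeg U 1
      rw [h2]
      exact chi_mem {u} (by simp)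
    | inr b => exact LowDeg.const 1 (if b = true then (-1 : ℝ) else 1)
  | zero => exact Submodule.zero_mem _
  | add a b _ _ ha hb => exact Submodule.add_mem _ ha hb
  | smul c a _ ha => exact Submodule.smul_mem _ c ha

end Pool.Agent.Helper600R2.Quad
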