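import Pool.Agent.Helper600R2.Quad.Mix

/-!
Hash tables which fool a finite family of functions of small approximate degree.
-/

namespace Pool.Agent.Helper600R2.Quad

open Pool.Agent.H564R2.QF Finset Pool.Agent.Helper600R2.Sharp H542

variable {ι κt : Type} [Fintype ι] [DecidableEq ι] [Fintype κt] [DecidableEq κt] {k : ℕ}

/-- the assignment of all variables: survivors `J` with values `y`, other block variables `x`,
pointers `p` -/
def fullv (p : ι → κt → Bool) (J : ι → Fin k) (x : ι × Fin k → Bool) (y : ι → Bool) :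
    (ι × Fin k) ⊕ (ι × κt) → Bool :=
  Sum.elim (rs J x y) (fun w => p w.1 w.2)

open Classical in
theorem exists_hash2 (hk : 1 ≤ k) {Cd : Type} [Fintype Cd]
    (F : Cd → ((ι × Fin k) ⊕ (ι × κt) → Bool) → Bool) (d : ℕ)
    (hF : ∀ c (w : ι × κt → Bool), Apx (ι × Fin k) k d (fun z => F c (Sum.elim z w)))
    (mm : ℕ) (τ : ℝ) (hτ : 0 < τ)
    (hlt : (Fintype.card Cd : ℝ) * ((1 / 4) ^ d * Real.exp ((Fintype.card ι : ℝ) *
      ((192 - 1) * mm / Fintype.card (κt → Bool)))) ^ mm < τ ^ mm) :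
    ∃ h : ι → (κt → Bool) → Fin k, ∀ (L : Type) [Fintype L] (ψ : L → Cd),
      (Fintype.card L : ℝ) * τ ≤ 1 →
      ∃ (p : ι → κt → Bool) (x : ι × Fin k → Bool), ∀ l,
        (fun y : ι → Bool => if F (ψ l) (fullv p (fun i => h i (p i)) x y) = true then (1 : ℝ)
          else 0) ∈ LowDeg ι d := by
  set X2 : ℝ := 2 ^ Fintype.card (ι × Fin k) with hX2
  have hX20 : 0 < X2 := by positivity
  have hne : Nonempty (Fin k) := ⟨⟨0, hk⟩⟩
  let q : Cd → (ι → κt → Bool) → (ι → Fin k) → (ι × Fin k → Bool) → ℝ := fun c p J x =>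
    if (fun y : ι → Bool => if F c (fullv p J x y) = true then (1 : ℝ) else 0) ∈ LowDeg ι d
      then 0 else 1
  have hq0 : ∀ c p J x, 0 ≤ q c p J x := by
    intro c p J x
    simp only [q]
    split_ifs <;> norm_num
  let Q : Cd → (ι → κt → Bool) → (ι → Fin k) → ℝ := fun c p J => (∑ x, q c p J x) / X2
  have hQ0 : ∀ c p J, 0 ≤ Q c p J := fun c p J => div_nonneg (sum_nonneg fun x _ => hq0 c p J x)
    hX20.le
  have hrob : ∀ (c : Cd) (p : ι → κt → Bool) (B : Finset ι) (J0 : ι → Fin k),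
      ∑ J : ι → Fin k, Q c p (mix B J0 J) ≤ (Fintype.card (Fin k) : ℝ) ^ Fintype.card ι *
        ((1 / 4) ^ d * (192 : ℝ) ^ B.card) := by
    intro c p B J0
    simp only [Q]
    rw [← sum_div, div_le_iff₀ hX20]
    have h1 := bad_mix (fun z => F c (Sum.elim z (fun w : ι × κt => p w.1 w.2))) hk
      (hF c (fun w => p w.1 w.2)) B J0
    refine le_trans (le_of_eq ?_) (h1.trans (le_of_eq ?_))
    · rfl
    · rw [Fintype.card_fin]; ring
  obtain ⟨h, hh⟩ := exists_map (Cd := Cd) Q ((1 / 4) ^ d) 192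
    (by positivity) (by norm_num) hQ0 hrob mm τ hτ.le hlt
  refine ⟨h, ?_⟩
  intro L _ ψ hL
  by_contra hcon
  push Not at hcon
  -- every restriction violates some line
  have hge : ∀ (p : ι → κt → Bool) (x : ι × Fin k → Bool),
      1 ≤ ∑ l, q (ψ l) p (fun i => h i (p i)) x := by
    intro p x
    obtain ⟨l, hl⟩ := hcon p x
    have h3 : 1 ≤ q (ψ l) p (fun i => h i (p i)) x := by
      simp only [q]
      rw [if_neg hl]
    exact h3.trans (single_le_sum (f := fun l => q (ψ l) p (fun i => h i (p i)) x)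
      (fun l _ => hq0 _ _ _ _) (mem_univ l))
  have hsum : (Fintype.card (ι → κt → Bool) : ℝ) * X2 ≤
      ∑ p : ι → κt → Bool, ∑ x : ι × Fin k → Bool, ∑ l, q (ψ l) p (fun i => h i (p i)) x := by
    calc (Fintype.card (ι → κt → Bool) : ℝ) * X2
        = ∑ p : ι → κt → Bool, ∑ x : ι × Fin k → Bool, (1 : ℝ) := by
          simp only [sum_const, card_univ, nsmul_eq_mul, mul_one]
          rw [hX2, Fintype.card_fun (α := ι × Fin k)]
          simp
      _ ≤ _ := sum_le_sum fun p _ => sum_le_sum fun x _ => hge p x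
  have hKn : (0 : ℝ) < (Fintype.card (κt → Bool) : ℝ) ^ Fintype.card ι := by
    have : (0 : ℝ) < Fintype.card (κt → Bool) := by
      exact_mod_cast (Fintype.card_pos : 0 < Fintype.card (κt → Bool))
    positivity
  have havg : ∑ l, avg (Q (ψ l)) h = (∑ p : ι → κt → Bool, ∑ x : ι × Fin k → Bool,
      ∑ l, q (ψ l) p (fun i => h i (p i)) x) /
        ((Fintype.card (κt → Bool) : ℝ) ^ Fintype.card ι * X2) := by
    have e1 : ∀ l, avg (Q (ψ l)) h = (∑ p : ι → κt → Bool, ∑ x : ι × Fin k → Bool,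
        q (ψ l) p (fun i => h i (p i)) x) /
        ((Fintype.card (κt → Bool) : ℝ) ^ Fintype.card ι * X2) := by
      intro l
      unfold avg
      simp only [Q]
      rw [← sum_div, div_div, mul_comm X2]
    simp_rw [e1]
    rw [← sum_div, sum_comm]
    congr 1
    refine sum_congr rfl fun p _ => ?_
    rw [sum_comm]
  have hone : 1 ≤ ∑ l, avg (Q (ψ l)) h := by
    rw [havg, le_div_iff₀ (by positivity), one_mul]
    refine le_trans (le_of_eq ?_) hsum
    congr 1
    rw [Fintype.card_fun (α := ι)]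
    push_cast
    rfl
  rcases isEmpty_or_nonempty L with hLe | hLn
  · simp at hone
    linarith
  · have hlt2 : ∑ l, avg (Q (ψ l)) h < ∑ l : L, τ :=
      sum_lt_sum_of_nonempty univ_nonempty fun l _ => hh (ψ l)
    rw [sum_const, card_univ, nsmul_eq_mul] at hlt2
    linarith

end Pool.Agent.Helper600R2.Quad
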