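import Pool.Agent.Helper600R2.Sharp.Restr
import Pool.Agent.H542R2.Expose

/-!
The restriction lemma with some prescribed survivors.
-/

namespace Pool.Agent.Helper600R2.Quad

open Pool.Agent.H564R2.QF Finset Pool.Agent.Helper600R2.Sharp H542

/-- approximable by polynomials at all levels above `d` -/
def Apx (V : Type) (m d : ℕ) (f : (V → Bool) → Bool) : Prop :=
  ∀ j, d < j → ∃ D, 191 * D ≤ m * j ∧ ∃ P ∈ LowDeg V D, ∀ z,
    |P z - (if f z = true then (1 : ℝ) else 0)| ≤ (1 / 4) ^ j

variable {E : Type} [Fintype E] [DecidableEq E] {m : ℕ}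

lemma count_mix (S : Finset (E × Fin m)) (j D : ℕ) (hm : 1 ≤ m) (hS : S.card ≤ D)
    (hD : 191 * D ≤ m * j) (B : Finset E) (J0 : E → Fin m) :
    ((univ.filter (fun J : E → Fin m => (surv (mix B J0 J) S).card = j)).card : ℝ) ≤
      m ^ Fintype.card E * (192 ^ B.card * (1 / 64) ^ j) := by
  have hmr : (0 : ℝ) < m := by exact_mod_cast hm
  have h1 : ((univ.filter (fun J : E → Fin m => (surv (mix B J0 J) S).card = j)).card : ℝ) *
      192 ^ j ≤ ∑ J : E → Fin m, (192 : ℝ) ^ (surv (mix B J0 J) S).card := by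
    rw [← nsmul_eq_mul, ← Finset.sum_const]
    calc ∑ s ∈ univ.filter (fun J : E → Fin m => (surv (mix B J0 J) S).card = j), (192 : ℝ) ^ j
        = ∑ J ∈ univ.filter (fun J : E → Fin m => (surv (mix B J0 J) S).card = j),
            (192 : ℝ) ^ (surv (mix B J0 J) S).card := by
          refine Finset.sum_congr rfl (fun s hs => ?_)
          simp only [mem_filter, mem_univ, true_and] at hs
          rw [hs]
      _ ≤ _ := Finset.sum_le_sum_of_subset_of_nonneg (Finset.filter_subset _ _)
          (fun s _ _ => by positivity)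
  let w : E → Fin m → ℝ := fun e i => if e ∈ B then (if (e, J0 e) ∈ S then (192 : ℝ) else 1) else
    (if (e, i) ∈ S then (192 : ℝ) else 1)
  have hw0 : ∀ e i, 0 ≤ w e i := by
    intro e i
    simp only [w]
    split_ifs <;> norm_num
  have h2 : ∀ J : E → Fin m, (192 : ℝ) ^ (surv (mix B J0 J) S).card = ∏ e, w e (J e) := by
    intro J
    rw [surv, ← Finset.prod_const, Finset.prod_filter]
    refine Finset.prod_congr rfl (fun e _ => ?_)
    simp only [w, mix]
    by_cases he : e ∈ B <;> simp [he]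
  have h3 : ∑ J : E → Fin m, (192 : ℝ) ^ (surv (mix B J0 J) S).card = ∏ e, ∑ i : Fin m, w e i := by
    simp only [h2]
    have := Finset.prod_univ_sum (fun _ : E => (univ : Finset (Fin m))) (fun e i => w e i)
    rw [Fintype.piFinset_univ] at this
    exact this.symm
  have h4 : ∀ e, ∑ i : Fin m, w e i ≤ (if e ∈ B then (192 : ℝ) else 1) *
      (m * Real.exp (191 * (∑ i : Fin m, if (e, i) ∈ S then (1 : ℝ) else 0) / m)) := by
    intro e
    have ha0 : 0 ≤ ∑ i : Fin m, (if (e, i) ∈ S then (1 : ℝ) else 0) :=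
      Finset.sum_nonneg (fun i _ => by split_ifs <;> norm_num)
    by_cases he : e ∈ B
    · have h5 : ∑ i : Fin m, w e i ≤ 192 * m := by
        calc ∑ i : Fin m, w e i ≤ ∑ _i : Fin m, (192 : ℝ) := by
              refine Finset.sum_le_sum (fun i _ => ?_)
              simp only [w, he, if_true]
              split_ifs <;> norm_num
          _ = 192 * m := by simp [mul_comm]
      rw [if_pos he]
      refine h5.trans ?_
      have h6 : (1 : ℝ) ≤ Real.exp (191 * (∑ i : Fin m, if (e, i) ∈ S then (1 : ℝ) else 0) / m) :=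
        Real.one_le_exp (by positivity)
      nlinarith
    · have h5 : ∑ i : Fin m, w e i =
          m + 191 * ∑ i : Fin m, (if (e, i) ∈ S then (1 : ℝ) else 0) := by
        have : ∀ i : Fin m, w e i =
            1 + 191 * (if (e, i) ∈ S then (1 : ℝ) else 0) := by
          intro i
          simp only [w, he, if_false]
          split_ifs <;> norm_num
        simp only [this]
        rw [Finset.sum_add_distrib, ← Finset.mul_sum]
        simp
      rw [h5, if_neg he, one_mul]
      have h6 := Real.add_one_le_exp (191 * (∑ i : Fin m, if (e, i) ∈ S then (1 : ℝ) else 0) / m)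
      calc (m : ℝ) + 191 * ∑ i : Fin m, (if (e, i) ∈ S then (1 : ℝ) else 0)
          = m * (191 * (∑ i : Fin m, if (e, i) ∈ S then (1 : ℝ) else 0) / m + 1) := by
            field_simp; ring
        _ ≤ _ := mul_le_mul_of_nonneg_left h6 hmr.le
  have h7 : ∑ e : E, ∑ i : Fin m, (if (e, i) ∈ S then (1 : ℝ) else 0) = S.card := by
    rw [← Fintype.sum_prod_type' (f := fun e i => if (e, i) ∈ S then (1 : ℝ) else 0)]
    rw [Finset.sum_ite_mem]
    simp
  have h8 : ∑ J : E → Fin m, (192 : ℝ) ^ (surv (mix B J0 J) S).card ≤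
      m ^ Fintype.card E * (192 ^ B.card * 3 ^ j) := by
    rw [h3]
    calc ∏ e, ∑ i : Fin m, w e i
        ≤ ∏ e, ((if e ∈ B then (192 : ℝ) else 1) *
            (m * Real.exp (191 * (∑ i : Fin m, if (e, i) ∈ S then (1 : ℝ) else 0) / m))) := by
          refine Finset.prod_le_prod (fun e _ => ?_) (fun e _ => h4 e)
          exact Finset.sum_nonneg (fun i _ => hw0 e i)
      _ = 192 ^ B.card * (m ^ Fintype.card E * Real.exp (191 * S.card / m)) := by
          rw [Finset.prod_mul_distrib, Finset.prod_mul_distrib, Finset.prod_const,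
            Finset.card_univ, ← Real.exp_sum, ← Finset.sum_div, ← Finset.mul_sum, h7]
          congr 1
          rw [Finset.prod_ite_mem, Finset.univ_inter, Finset.prod_const]
      _ ≤ 192 ^ B.card * (m ^ Fintype.card E * 3 ^ j) := by
          apply mul_le_mul_of_nonneg_left _ (by positivity)
          apply mul_le_mul_of_nonneg_left _ (by positivity)
          have h9 : (191 * (S.card : ℝ) / m) ≤ j := by
            rw [div_le_iff₀ hmr]
            have h10 : 191 * S.card ≤ j * m := by
              calc 191 * S.card ≤ 191 * D := Nat.mul_le_mul_left _ hS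
                _ ≤ m * j := hD
                _ = j * m := mul_comm _ _
            exact_mod_cast h10
          calc Real.exp (191 * S.card / m) ≤ Real.exp j := Real.exp_le_exp.mpr h9
            _ = Real.exp 1 ^ j := by rw [← Real.exp_nat_mul, mul_one]
            _ ≤ 3 ^ j := by
                apply pow_le_pow_left₀ (Real.exp_pos 1).le
                linarith [Real.exp_one_lt_d9]
      _ = _ := by ring
  have h11 : ((univ.filter (fun J : E → Fin m => (surv (mix B J0 J) S).card = j)).card : ℝ) *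
      192 ^ j ≤ m ^ Fintype.card E * (192 ^ B.card * (1 / 64) ^ j) * 192 ^ j := by
    refine (h1.trans h8).trans (le_of_eq ?_)
    rw [mul_assoc, mul_assoc, ← mul_pow]; norm_num
  exact le_of_mul_le_mul_right h11 (by positivity)

lemma total_mix (f p : (E × Fin m → Bool) → ℝ) (j D : ℕ) (hj : 1 ≤ j) (hm : 1 ≤ m)
    (hf : ∀ z, f z = 0 ∨ f z = 1) (hp : p ∈ LowDeg (E × Fin m) D)
    (hpf : ∀ z, |p z - f z| ≤ (1 / 4) ^ j) (hD : 191 * D ≤ m * j) (B : Finset E)
    (J0 : E → Fin m) :
    ∑ s : E → Fin m, ∑ x : E × Fin m → Bool, 4 ^ j * W j (fun y => f (rs (mix B J0 s) x y)) ≤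
      (m ^ Fintype.card E * 2 ^ Fintype.card (E × Fin m)) *
        (192 ^ B.card * (3 * (1 / 4) ^ j)) := by
  have hB1 : (1 : ℝ) ≤ 192 ^ B.card := one_le_pow₀ (by norm_num)
  have hpow : ((1 : ℝ) / 4) ^ j ≤ 1 / 4 := by
    calc ((1 : ℝ) / 4) ^ j ≤ (1 / 4) ^ 1 := pow_le_pow_of_le_one (by norm_num) (by norm_num) hj
      _ = 1 / 4 := by norm_num
  have hp2 : ∀ z, p z ^ 2 ≤ 2 := by
    intro z
    have h1 := abs_le.mp (hpf z)
    rcases hf z with h | h <;> rw [h] at h1 <;> nlinarith
  have hsum2 : ∑ S : Finset (E × Fin m), coef p S ^ 2 ≤ 2 := parseval_le p 2 hp2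
  -- the polynomial
  have hP : ∑ s : E → Fin m, ∑ x : E × Fin m → Bool, W j (fun y => p (rs (mix B J0 s) x y)) ≤
      (m ^ Fintype.card E * 2 ^ Fintype.card (E × Fin m)) *
        (192 ^ B.card * (2 * (1 / 64) ^ j)) := by
    simp only [sum_W_rs]
    rw [← Finset.mul_sum, Finset.sum_comm]
    have h1 : ∀ S : Finset (E × Fin m), ∑ s : E → Fin m,
        (if (surv (mix B J0 s) S).card = j then coef p S ^ 2 else 0) ≤
        m ^ Fintype.card E * (192 ^ B.card * (1 / 64) ^ j) * coef p S ^ 2 := by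
      intro S
      rw [← Finset.sum_filter, Finset.sum_const, nsmul_eq_mul]
      by_cases hS : S.card ≤ D
      · exact mul_le_mul_of_nonneg_right (count_mix S j D hm hS hD B J0) (by positivity)
      · rw [lowDeg_coef hp S (by omega)]; simp
    have h2 : ∑ S : Finset (E × Fin m), ∑ s : E → Fin m,
        (if (surv (mix B J0 s) S).card = j then coef p S ^ 2 else 0) ≤
        m ^ Fintype.card E * (192 ^ B.card * (1 / 64) ^ j) * 2 := by
      refine (Finset.sum_le_sum (fun S _ => h1 S)).trans ?_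
      rw [← Finset.mul_sum]
      exact mul_le_mul_of_nonneg_left hsum2 (by positivity)
    refine (mul_le_mul_of_nonneg_left h2 (by positivity)).trans (le_of_eq ?_)
    ring
  -- the error
  have hE : ∀ s : E → Fin m, ∀ x : E × Fin m → Bool,
      W j ((fun y => f (rs (mix B J0 s) x y)) - fun y => p (rs (mix B J0 s) x y)) ≤
        (1 / 16) ^ j := by
    intro s x
    apply W_le
    intro y
    simp only [Pi.sub_apply]
    have h1 := hpf (rs (mix B J0 s) x y)
    calc (f (rs (mix B J0 s) x y) - p (rs (mix B J0 s) x y)) ^ 2 =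
        |p (rs (mix B J0 s) x y) - f (rs (mix B J0 s) x y)| ^ 2 := by
          rw [sq_abs]; ring
      _ ≤ ((1 / 4) ^ j) ^ 2 := pow_le_pow_left₀ (abs_nonneg _) h1 2
      _ = (1 / 16) ^ j := by rw [← pow_mul, mul_comm j 2, pow_mul]; norm_num
  have hcard : ∑ _s : E → Fin m, ∑ _x : E × Fin m → Bool, (1 : ℝ) =
      m ^ Fintype.card E * 2 ^ Fintype.card (E × Fin m) := by
    simp
  calc ∑ s : E → Fin m, ∑ x : E × Fin m → Bool, 4 ^ j * W j (fun y => f (rs (mix B J0 s) x y))
      ≤ ∑ s : E → Fin m, ∑ x : E × Fin m → Bool,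
          (4 ^ j * 2 * W j (fun y => p (rs (mix B J0 s) x y)) +
            4 ^ j * 2 * (1 / 16) ^ j * 1) := by
        refine Finset.sum_le_sum (fun s _ => Finset.sum_le_sum (fun x _ => ?_))
        have h1 := W_sub j (fun y => f (rs (mix B J0 s) x y)) (fun y => p (rs (mix B J0 s) x y))
        have h2 := hE s x
        have h3 : (0 : ℝ) < 4 ^ j := by positivity
        nlinarith
    _ = 4 ^ j * 2 * (∑ s : E → Fin m, ∑ x : E × Fin m → Bool,
            W j (fun y => p (rs (mix B J0 s) x y))) +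
          4 ^ j * 2 * (1 / 16) ^ j * (m ^ Fintype.card E * 2 ^ Fintype.card (E × Fin m)) := by
        rw [← hcard]
        simp only [Finset.sum_add_distrib, ← Finset.mul_sum]
    _ ≤ 4 ^ j * 2 * ((m ^ Fintype.card E * 2 ^ Fintype.card (E × Fin m)) *
            (192 ^ B.card * (2 * (1 / 64) ^ j))) +
          4 ^ j * 2 * (1 / 16) ^ j * (m ^ Fintype.card E * 2 ^ Fintype.card (E × Fin m)) := by
        gcongr
    _ = (m ^ Fintype.card E * 2 ^ Fintype.card (E × Fin m)) *
          (192 ^ B.card * (4 * ((1 / 4) ^ j * (1 / 4) ^ j)) + 2 * (1 / 4) ^ j) := by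
        have h1 : (4 : ℝ) ^ j * (1 / 64) ^ j = (1 / 4) ^ j * (1 / 4) ^ j := by
          rw [← mul_pow, ← mul_pow]; norm_num
        have h2 : (4 : ℝ) ^ j * (1 / 16) ^ j = (1 / 4) ^ j := by
          rw [← mul_pow]; norm_num
        linear_combination (4 * 192 ^ B.card *
          (m ^ Fintype.card E * 2 ^ Fintype.card (E × Fin m)) : ℝ) * h1 +
          (2 * (m ^ Fintype.card E * 2 ^ Fintype.card (E × Fin m)) : ℝ) * h2
    _ ≤ _ := by
        apply mul_le_mul_of_nonneg_left _ (by positivity)
        have h0 : (0 : ℝ) < (1 / 4) ^ j := by positivity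
        have h1 : 4 * (((1 : ℝ) / 4) ^ j * (1 / 4) ^ j) ≤ (1 / 4) ^ j := by nlinarith
        have h2 : 2 * ((1 : ℝ) / 4) ^ j ≤ 192 ^ B.card * (2 * (1 / 4) ^ j) := by nlinarith
        have h3 : (192 : ℝ) ^ B.card * (4 * ((1 / 4) ^ j * (1 / 4) ^ j)) ≤
            192 ^ B.card * (1 / 4) ^ j := mul_le_mul_of_nonneg_left h1 (by positivity)
        linarith

open Classical in
/-- few restrictions are bad, even with prescribed survivors -/
lemma bad_mix {d : ℕ} (f : (E × Fin m → Bool) → Bool) (hm : 1 ≤ m) (hf : Apx (E × Fin m) m d f)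
    (B : Finset E) (J0 : E → Fin m) :
    ∑ s : E → Fin m, ∑ x : E × Fin m → Bool,
      (if (fun y : E → Bool => if f (rs (mix B J0 s) x y) = true then (1 : ℝ) else 0) ∈
        LowDeg E d then (0 : ℝ) else 1) ≤
      (m ^ Fintype.card E * 2 ^ Fintype.card (E × Fin m)) * (192 ^ B.card * (1 / 4) ^ d) := by
  set N : ℝ := m ^ Fintype.card E * 2 ^ Fintype.card (E × Fin m) with hN
  have hNpos : 0 ≤ N := by positivity
  let F : (E × Fin m → Bool) → ℝ := fun z => if f z = true then 1 else 0
  have hF : ∀ z, F z = 0 ∨ F z = 1 := by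
    intro z
    simp only [F]
    split_ifs <;> simp
  have h1 : ∑ s : E → Fin m, ∑ x : E × Fin m → Bool,
      (if (fun y : E → Bool => if f (rs (mix B J0 s) x y) = true then (1 : ℝ) else 0) ∈
        LowDeg E d then (0 : ℝ) else 1) ≤
      ∑ s : E → Fin m, ∑ x : E × Fin m → Bool,
        ∑ j ∈ Finset.Ioc d (Fintype.card E), 4 ^ j * W j (fun y => F (rs (mix B J0 s) x y)) := by
    refine Finset.sum_le_sum (fun s _ => Finset.sum_le_sum (fun x _ => ?_))
    split_ifs with h
    · exact Finset.sum_nonneg (fun j _ => mul_nonneg (by positivity) (W_nonneg j _))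
    · exact bad_le (fun y => F (rs (mix B J0 s) x y)) (fun y => hF _) d h
  have h3 : ∑ s : E → Fin m, ∑ x : E × Fin m → Bool,
        ∑ j ∈ Finset.Ioc d (Fintype.card E), 4 ^ j * W j (fun y => F (rs (mix B J0 s) x y)) =
      ∑ j ∈ Finset.Ioc d (Fintype.card E), ∑ s : E → Fin m,
        ∑ x : E × Fin m → Bool, 4 ^ j * W j (fun y => F (rs (mix B J0 s) x y)) := by
    have h4 : ∀ s : E → Fin m, ∑ x : E × Fin m → Bool,
        ∑ j ∈ Finset.Ioc d (Fintype.card E), 4 ^ j * W j (fun y => F (rs (mix B J0 s) x y)) =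
        ∑ j ∈ Finset.Ioc d (Fintype.card E), ∑ x : E × Fin m → Bool,
          4 ^ j * W j (fun y => F (rs (mix B J0 s) x y)) := by
      intro s
      rw [Finset.sum_comm]
    simp only [h4]
    rw [Finset.sum_comm]
  have h5 : ∑ j ∈ Finset.Ioc d (Fintype.card E), ∑ s : E → Fin m,
        ∑ x : E × Fin m → Bool, 4 ^ j * W j (fun y => F (rs (mix B J0 s) x y)) ≤
        N * (192 ^ B.card * (1 / 4) ^ d) := by
    calc ∑ j ∈ Finset.Ioc d (Fintype.card E), ∑ s : E → Fin m,
        ∑ x : E × Fin m → Bool, 4 ^ j * W j (fun y => F (rs (mix B J0 s) x y))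
        ≤ ∑ j ∈ Finset.Ioc d (Fintype.card E), N * (192 ^ B.card * (3 * (1 / 4) ^ j)) := by
          refine Finset.sum_le_sum (fun j hj => ?_)
          rw [Finset.mem_Ioc] at hj
          obtain ⟨D, hD, P, hP, hPf⟩ := hf j hj.1
          exact total_mix F P j D (by omega) hm hF hP hPf hD B J0
      _ = N * (192 ^ B.card * ∑ j ∈ Finset.Ioc d (Fintype.card E), (3 * (1 / 4 : ℝ) ^ j)) := by
          rw [Finset.mul_sum, Finset.mul_sum]
      _ ≤ N * (192 ^ B.card * (1 / 4) ^ d) := by
          apply mul_le_mul_of_nonneg_left _ hNpos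
          exact mul_le_mul_of_nonneg_left (geom d _) (by positivity)
  exact (h1.trans (le_of_eq h3)).trans h5

end Pool.Agent.Helper600R2.Quad
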