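import Mathlib
import Pool.Agent.H542R2.Numeric

/-!
Choice of the parameters for arbitrary families of lines of small approximate degree.
-/

namespace Pool.Agent.Helper600R2.Quad

open Filter H542

/-- the counting inequality -/
theorem count_ineq3 (C : ℝ) (m d : ℕ) (y E : ℝ) (hC : C ≤ 2 ^ m) (hm : 1 ≤ m)
    (hE : E ≤ 1) (htd : y + 2 ≤ d) :
    C * ((1 / 4) ^ d * Real.exp E) ^ m < (Real.exp (-y)) ^ m := by
  have h4 : ((1 : ℝ) / 4) ^ d ≤ Real.exp (-(d : ℝ)) := by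
    have h5 : Real.exp (-(d : ℝ)) = (Real.exp (-1)) ^ d := by
      rw [← Real.exp_nat_mul]; congr 1; ring
    rw [h5]
    apply pow_le_pow_left₀ (by norm_num)
    rw [Real.exp_neg, ← one_div]
    apply one_div_le_one_div_of_le (Real.exp_pos 1)
    linarith [Real.exp_one_lt_d9]
  have h2 : (1 / 4) ^ d * Real.exp E ≤ Real.exp (-y - 1) := by
    calc (1 / 4) ^ d * Real.exp E ≤ Real.exp (-(d : ℝ)) * Real.exp E :=
          mul_le_mul_of_nonneg_right h4 (Real.exp_pos E).le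
      _ = Real.exp (-(d : ℝ) + E) := by rw [← Real.exp_add]
      _ ≤ _ := by
          apply Real.exp_le_exp.mpr
          linarith
  have h3 : (2 : ℝ) < Real.exp 1 := by linarith [Real.exp_one_gt_d9]
  calc C * ((1 / 4) ^ d * Real.exp E) ^ m
      ≤ 2 ^ m * (Real.exp (-y - 1)) ^ m := by
        apply mul_le_mul hC _ (by positivity) (by positivity)
        exact pow_le_pow_left₀ (by positivity) h2 m
    _ < (Real.exp 1) ^ m * (Real.exp (-y - 1)) ^ m := by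
        apply mul_lt_mul_of_pos_right _ (by positivity)
        exact pow_lt_pow_left₀ h3 (by norm_num) (by omega)
    _ = (Real.exp (-y)) ^ m := by
        rw [← mul_pow, ← Real.exp_add]
        congr 2
        ring

/-- All the parameters and the inequalities between them. -/
theorem numeric3 (K : ℕ) (p : ℝ) (hp : 0 < p) (hp1 : 64 * p ≤ 1 / 2) :
    ∃ N0 : ℕ, ∀ N : ℕ, N0 ≤ N → ∃ (n k κ d : ℕ), 25 ≤ n ∧ 1 ≤ k ∧ 1 ≤ N ∧
      2 * n * k + 2 * n * κ ≤ N ∧ κ = (K + 2) * (Nat.log 2 N + 1) ∧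
      (∀ D : ℕ, (D : ℝ) ≤ (N : ℝ) ^ (1 - 64 * p) → 100000 * D ≤ k) ∧
      (N : ℝ) ^ (2 * p) + 2 ≤ d ∧
      (2 * n : ℝ) * ((192 - 1) * (N ^ K : ℕ) / 2 ^ κ) ≤ 1 ∧
      (∀ a r : ℕ, (a : ℝ) ≤ (N : ℝ) ^ p → (r : ℝ) ≤ (N : ℝ) ^ p →
        2 * ((a + 1) * (r * d) + 4) ≤ n / 60) ∧
      (∀ r : ℕ, ∀ S : ℝ, 0 ≤ S → (r : ℝ) ≤ (N : ℝ) ^ p → S < Real.exp ((N : ℝ) ^ p) →
        (S * r) * Real.exp (-(N : ℝ) ^ (2 * p)) ≤ 1) ∧
      n * (2 ^ κ * 2) ^ 4 ≤ N ^ (4 * K + 9) := by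
  have hall : ∀ᶠ x : ℝ in atTop, (2 : ℝ) ^ 24 ≤ x ∧ 4 * x ^ (0 : ℝ) ≤ x ^ p ∧
      (64000000 * 16 ^ (K + 3)) * x ^ (8 * p) ≤ x ^ (1 : ℝ) ∧
      (56 * (K + 2)) * x ^ (8 * p + 1 / 4) ≤ x ^ (1 : ℝ) ∧
      (100000 * 8) * x ^ (1 - 64 * p) ≤ x ^ (1 - 8 * p) ∧
      4 * x ^ (2 * p) ≤ x ^ (3 * p) ∧
      2000000 * x ^ (5 * p) ≤ x ^ (8 * p) := by
    filter_upwards [eventually_ge_atTop ((2 : ℝ) ^ 24), ev_pow 0 p 4 hp,
      ev_pow (8 * p) 1 (64000000 * 16 ^ (K + 3)) (by linarith),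
      ev_pow (8 * p + 1 / 4) 1 (56 * (K + 2)) (by linarith),
      ev_pow (1 - 64 * p) (1 - 8 * p) (100000 * 8) (by linarith),
      ev_pow (2 * p) (3 * p) 4 (by linarith),
      ev_pow (5 * p) (8 * p) 2000000 (by linarith)] with x h1 h2 h3 h4 h5 h7 h8
    exact ⟨h1, h2, h3, h4, h5, h7, h8⟩
  rw [eventually_atTop] at hall
  obtain ⟨x0, hx0⟩ := hall
  obtain ⟨N0, hN0⟩ := exists_nat_ge x0
  refine ⟨N0, fun N hN => ?_⟩
  have hNx : x0 ≤ (N : ℝ) := hN0.trans (by exact_mod_cast hN)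
  obtain ⟨e1, e2, e3', e4, e5, e7, e8⟩ := hx0 (N : ℝ) hNx
  set x : ℝ := (N : ℝ) with hx
  have hx1 : (1 : ℝ) ≤ x := le_trans (by norm_num) e1
  have hxpos : (0 : ℝ) < x := by linarith
  rw [Real.rpow_zero, mul_one] at e2
  rw [Real.rpow_one] at e3' e4
  have h16 : (1 : ℝ) ≤ 16 ^ (K + 3) := one_le_pow₀ (by norm_num)
  have hx8 : (0 : ℝ) ≤ x ^ (8 * p) := by positivity
  have e3 : 64000000 * x ^ (8 * p) ≤ x := by
    refine le_trans ?_ e3'
    nlinarith
  have hmono : ∀ {a b : ℝ}, a ≤ b → x ^ a ≤ x ^ b := fun h => Real.rpow_le_rpow_of_exponent_le hx1 h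
  have hone : ∀ {a : ℝ}, 0 ≤ a → 1 ≤ x ^ a := fun h => Real.one_le_rpow hx1 h
  -- n
  obtain ⟨n, hn⟩ : ∃ n : ℕ, n = ⌊x ^ (8 * p)⌋₊ := ⟨_, rfl⟩
  have hn1 : (n : ℝ) ≤ x ^ (8 * p) := by rw [hn]; exact Nat.floor_le (by positivity)
  have hn2 : x ^ (8 * p) < n + 1 := by rw [hn]; exact Nat.lt_floor_add_one _
  have h5p : 1 ≤ x ^ (5 * p) := hone (by linarith)
  have hn25 : 25 ≤ n := by
    have : (25 : ℝ) ≤ n := by linarith
    exact_mod_cast this
  have hnpos : 0 < n := by omega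
  have hnR : (25 : ℝ) ≤ n := by exact_mod_cast hn25
  -- k
  obtain ⟨k, hk⟩ : ∃ k : ℕ, k = N / (4 * n) := ⟨_, rfl⟩
  have hk1 : x < (k + 1) * (4 * n) := by
    have h1 : N < 4 * n * (N / (4 * n) + 1) := Nat.lt_mul_div_succ N (by omega)
    rw [← hk] at h1
    have h2 : (N : ℝ) < 4 * n * (k + 1) := by exact_mod_cast h1
    rw [← hx] at h2
    linarith
  have hkge' : x ^ (1 - 8 * p) < 4 * (k + 1) := by
    have h1 : x = x ^ (8 * p) * x ^ (1 - 8 * p) := by
      rw [← Real.rpow_add hxpos]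
      have : 8 * p + (1 - 8 * p) = 1 := by ring
      rw [this, Real.rpow_one]
    have hq : 0 < x ^ (8 * p) := by positivity
    have h2 : x < (k + 1) * (4 * x ^ (8 * p)) := by
      refine hk1.trans_le ?_
      apply mul_le_mul_of_nonneg_left _ (by positivity)
      linarith
    have h3 : x ^ (8 * p) * x ^ (1 - 8 * p) < x ^ (8 * p) * (4 * (k + 1)) := by
      rw [← h1]
      linarith
    exact lt_of_mul_lt_mul_left h3 hq.le
  have hbig : 64000000 ≤ x ^ (1 - 8 * p) := by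
    have h1 : x = x ^ (8 * p) * x ^ (1 - 8 * p) := by
      rw [← Real.rpow_add hxpos]
      have : 8 * p + (1 - 8 * p) = 1 := by ring
      rw [this, Real.rpow_one]
    have hq : 0 < x ^ (8 * p) := by positivity
    have : x ^ (8 * p) * 64000000 ≤ x ^ (8 * p) * x ^ (1 - 8 * p) := by
      rw [← h1]
      linarith
    exact le_of_mul_le_mul_left this hq
  have hkge : x ^ (1 - 8 * p) / 8 ≤ k := by linarith
  have hk5 : 5000000 ≤ k := by
    have : (5000000 : ℝ) ≤ k := by linarith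
    exact_mod_cast this
  -- κ
  obtain ⟨κ, hκ⟩ : ∃ κ, κ = (K + 2) * (Nat.log 2 N + 1) := ⟨_, rfl⟩
  have hNne : N ≠ 0 := by
    intro h
    rw [h] at hx
    simp at hx
    linarith
  have hlog : (Nat.log 2 N : ℝ) ≤ 3 / 2 * Real.log x := by
    have h1 : 2 ^ Nat.log 2 N ≤ N := Nat.pow_log_le_self 2 hNne
    have h2 : ((2 : ℝ) ^ Nat.log 2 N) ≤ x := by
      rw [hx]
      exact_mod_cast h1
    have h3 := Real.log_le_log (by positivity) h2
    rw [Real.log_pow] at h3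
    have h4 := Real.log_two_gt_d9
    have h5 : (0 : ℝ) ≤ Nat.log 2 N := by positivity
    have h6 : (Nat.log 2 N : ℝ) * (2 / 3) ≤ Nat.log 2 N * Real.log 2 :=
      mul_le_mul_of_nonneg_left (by linarith) h5
    linarith
  have hlog4 : Real.log x ≤ 4 * x ^ (1 / 4 : ℝ) := by
    have := Real.log_le_rpow_div hxpos.le (show (0 : ℝ) < 1 / 4 by norm_num)
    linarith
  have hnκ : 2 * (n : ℝ) * κ ≤ x / 2 := by
    have h1 : (κ : ℝ) ≤ (14 * (K + 2)) * x ^ (1 / 4 : ℝ) := by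
      rw [hκ]
      push_cast
      have h2 : 1 ≤ x ^ (1 / 4 : ℝ) := hone (by norm_num)
      have h3 : (Nat.log 2 N : ℝ) + 1 ≤ 14 * x ^ (1 / 4 : ℝ) := by linarith
      have h4 : (0 : ℝ) ≤ (K : ℝ) + 2 := by positivity
      calc ((K : ℝ) + 2) * (Nat.log 2 N + 1) ≤ (K + 2) * (14 * x ^ (1 / 4 : ℝ)) :=
            mul_le_mul_of_nonneg_left h3 h4
        _ = _ := by ring
    calc 2 * (n : ℝ) * κ ≤ 2 * x ^ (8 * p) * ((14 * (K + 2)) * x ^ (1 / 4 : ℝ)) :=
          mul_le_mul (by linarith) h1 (by positivity) (by positivity)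
      _ = ((56 * (K + 2)) * x ^ (8 * p + 1 / 4)) / 2 := by
          rw [Real.rpow_add hxpos]; ring
      _ ≤ x / 2 := by linarith
  have hsum : 2 * n * k + 2 * n * κ ≤ N := by
    have h1 : 2 * (n : ℝ) * k ≤ x / 2 := by
      have h2 : 4 * n * k ≤ N := by rw [hk]; exact Nat.mul_div_le N (4 * n)
      have h3 : (4 : ℝ) * n * k ≤ x := by rw [hx]; exact_mod_cast h2
      linarith
    have h2 : ((2 * n * k + 2 * n * κ : ℕ) : ℝ) ≤ N := by
      push_cast
      rw [← hx]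
      linarith
    exact_mod_cast h2
  -- d
  obtain ⟨d, hd⟩ : ∃ d : ℕ, d = ⌊x ^ (3 * p)⌋₊ := ⟨_, rfl⟩
  have hd1 : (d : ℝ) ≤ x ^ (3 * p) := by rw [hd]; exact Nat.floor_le (by positivity)
  have hd2 : x ^ (3 * p) < d + 1 := by rw [hd]; exact Nat.lt_floor_add_one _
  have h2p : 1 ≤ x ^ (2 * p) := hone (by linarith)
  have htd : x ^ (2 * p) + 2 ≤ d := by linarith
  have hn1000 : 400 * n ≤ N := by
    have h3 : ((400 * n : ℕ) : ℝ) ≤ N := by
      push_cast
      rw [← hx]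
      linarith
    exact_mod_cast h3
  have h2κ : N ^ (K + 2) ≤ 2 ^ κ := by
    have h1 : N ≤ 2 ^ (Nat.log 2 N + 1) := (Nat.lt_pow_succ_log_self (by norm_num) N).le
    rw [hκ, mul_comm (K + 2), pow_mul]
    exact Nat.pow_le_pow_left h1 _
  have hE : (2 * n : ℝ) * ((192 - 1) * (N ^ K : ℕ) / 2 ^ κ) ≤ 1 := by
    have hk2 : (0 : ℝ) < 2 ^ κ := by positivity
    rw [← mul_div_assoc, div_le_one hk2]
    have h1 : (2 * n) * (191 * N ^ K) ≤ 2 ^ κ := by
      calc (2 * n) * (191 * N ^ K) = (382 * n) * N ^ K := by ring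
        _ ≤ (N * N) * N ^ K := by
            apply Nat.mul_le_mul_right
            calc 382 * n ≤ N := by omega
              _ ≤ N * N := Nat.le_mul_self N
        _ = N ^ (K + 2) := by ring
        _ ≤ _ := h2κ
    have h2 : (((2 * n) * (191 * N ^ K) : ℕ) : ℝ) ≤ ((2 ^ κ : ℕ) : ℝ) := by exact_mod_cast h1
    push_cast at h2 ⊢
    linarith
  have h2κ' : 2 ^ κ ≤ (2 * N) ^ (K + 2) := by
    have h2 : 2 ^ (Nat.log 2 N + 1) ≤ 2 * N := by
      rw [pow_succ, mul_comm]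
      exact Nat.mul_le_mul_left 2 (Nat.pow_log_le_self 2 hNne)
    rw [hκ, mul_comm (K + 2) (Nat.log 2 N + 1), pow_mul]
    exact Nat.pow_le_pow_left h2 _
  refine ⟨n, k, κ, d, hn25, by omega, Nat.one_le_iff_ne_zero.mpr hNne, hsum, hκ, ?_, htd, hE,
    ?_, ?_, ?_⟩
  · intro D hD
    have h1 : (100000 : ℝ) * D ≤ k := by
      have h2 : 100000 * (D : ℝ) ≤ 100000 * x ^ (1 - 64 * p) :=
        mul_le_mul_of_nonneg_left hD (by norm_num)
      linarith
    exact_mod_cast h1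
  · intro a r ha hr
    have h1 : ((a + 1 : ℕ) : ℝ) * (r * d) ≤ 2 * x ^ (5 * p) := by
      have h2 : ((a + 1 : ℕ) : ℝ) ≤ 2 * x ^ p := by
        push_cast
        have : 1 ≤ x ^ p := by linarith
        linarith
      have h3 : (r : ℝ) * d ≤ x ^ p * x ^ (3 * p) :=
        mul_le_mul hr hd1 (by positivity) (by positivity)
      calc ((a + 1 : ℕ) : ℝ) * (r * d) ≤ (2 * x ^ p) * (x ^ p * x ^ (3 * p)) :=
            mul_le_mul h2 h3 (by positivity) (by positivity)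
        _ = 2 * x ^ (5 * p) := by
            have : x ^ (5 * p) = x ^ p * (x ^ p * x ^ (3 * p)) := by
              rw [← Real.rpow_add hxpos, ← Real.rpow_add hxpos]; congr 1; ring
            rw [this]; ring
    have h6 : (n : ℝ) < 60 * ((n / 60 : ℕ) + 1) := by
      have : n < 60 * (n / 60 + 1) := Nat.lt_mul_div_succ n (by norm_num)
      exact_mod_cast this
    have h7 : ((2 * ((a + 1) * (r * d) + 4) : ℕ) : ℝ) ≤ ((n / 60 : ℕ) : ℝ) := by
      push_cast at h1 ⊢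
      linarith
    exact_mod_cast h7
  · intro r S hS0 hr hS
    have h1 : (r : ℝ) ≤ Real.exp (x ^ p) := by
      have := Real.add_one_le_exp (x ^ p)
      linarith
    have h2 : x ^ (2 * p) = x ^ p * x ^ p := by
      rw [← Real.rpow_add hxpos]; congr 1; ring
    calc (S * r) * Real.exp (-x ^ (2 * p))
        ≤ (Real.exp (x ^ p) * Real.exp (x ^ p)) * Real.exp (-x ^ (2 * p)) := by
          apply mul_le_mul_of_nonneg_right _ (Real.exp_pos _).le
          exact mul_le_mul hS.le h1 (by positivity) (Real.exp_pos _).le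
      _ = Real.exp (x ^ p + x ^ p + -x ^ (2 * p)) := by rw [Real.exp_add, Real.exp_add]
      _ ≤ Real.exp 0 := by
          apply Real.exp_le_exp.mpr
          rw [h2]
          have h3 : 4 * x ^ p ≤ x ^ p * x ^ p := mul_le_mul_of_nonneg_right e2 (by positivity)
          have h4 : 0 ≤ x ^ p := by positivity
          linarith
      _ = 1 := Real.exp_zero
  · have h2 : 16 ^ (K + 3) * n ≤ N := by
      have h3 : ((16 ^ (K + 3) * n : ℕ) : ℝ) ≤ N := by
        push_cast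
        rw [← hx]
        have h4 : (16 : ℝ) ^ (K + 3) * n ≤ 16 ^ (K + 3) * x ^ (8 * p) :=
          mul_le_mul_of_nonneg_left hn1 (by positivity)
        have h5 : (0 : ℝ) ≤ 16 ^ (K + 3) * x ^ (8 * p) := by positivity
        linarith
      exact_mod_cast h3
    calc n * (2 ^ κ * 2) ^ 4 ≤ n * ((2 * N) ^ (K + 2) * 2) ^ 4 := by
          apply Nat.mul_le_mul_left
          exact Nat.pow_le_pow_left (Nat.mul_le_mul_right 2 h2κ') 4
      _ = (16 ^ (K + 3) * n) * N ^ (4 * K + 8) := by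
          have h5 : (16 : ℕ) ^ (K + 3) = 2 ^ (4 * (K + 2)) * 2 ^ 4 := by
            rw [← pow_add]
            have : (16 : ℕ) = 2 ^ 4 := by norm_num
            rw [this, ← pow_mul]
            congr 1
          rw [h5, mul_pow, mul_pow, mul_pow]
          rw [← pow_mul, ← pow_mul]
          have h6 : (K + 2) * 4 = 4 * (K + 2) := by ring
          have h7 : 4 * K + 8 = 4 * (K + 2) := by ring
          rw [h6, h7]
          ring
      _ ≤ N * N ^ (4 * K + 8) := Nat.mul_le_mul_right _ h2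
      _ = N ^ (4 * K + 9) := by ring

end Pool.Agent.Helper600R2.Quad
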